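import Pool.Agent.T6.H32.OP.Defs

/-! Module ANG (helper32). -/

set_option autoImplicit false
set_option maxSynthPendingDepth 3

open scoped RealInnerProductSpace Topology Interval ContDiff
open MeasureTheory
open Pool.Agent.V11191.Opp (E3 Good)

namespace Pool.Agent.T6.H32.OP

/-- the forms are positive definite at the points of the sphere -/
theorem Near.pos {G : E3 → Bil} {u : E3 → ℝ} {M ε μ δ : ℝ} (hc : Cst u M ε μ δ)
    (hN : Near G u ε δ) {p v : E3} (hp : ‖p‖ = 1) : 1 / 2 * ‖v‖ ^ 2 ≤ G p v v := by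
  have h0 := hN.h0 p v v hp
  have hM := hc.good.one_le
  have hb := hc.good.bound p hp
  have h1 : |ε * u p| ≤ μ := by
    rw [abs_mul, abs_of_pos hc.eps, hc.mu]
    exact mul_le_mul_of_nonneg_left hb hc.eps.le
  have h2 := (abs_le.1 h1).1
  have hs := hc.small
  have h3 : 1 + 2 * (ε * u p) ≤ Real.exp (2 * (ε * u p)) := by
    have := Real.add_one_le_exp (2 * (ε * u p))
    linarith
  have hδ : δ ≤ 1 / 4 := by
    have := hc.del
    have h4 : 0 ≤ μ := (abs_nonneg _).trans h1
    nlinarith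
  have h5 := (abs_le.1 h0).1
  rw [real_inner_self_eq_norm_sq] at h5
  have h6 : 3 / 4 * ‖v‖ ^ 2 ≤ Real.exp (2 * (ε * u p)) * ‖v‖ ^ 2 := by
    apply mul_le_mul_of_nonneg_right _ (sq_nonneg _)
    linarith
  have h7 : δ * ‖v‖ * ‖v‖ ≤ 1 / 4 * ‖v‖ ^ 2 := by
    rw [mul_assoc, ← pow_two]
    exact mul_le_mul_of_nonneg_right hδ (sq_nonneg _)
  linarith

theorem ang : ANGStm := by
  intro G u M ε μ δ hc hN y v w hy hang hs
  unfold gang at hang
  rw [Real.arccos_eq_pi] at hang
  rw [← hs] at hang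
  set s := Real.sqrt (G y v v) with hsdef
  have hpos : ∀ z : E3, 1 / 2 * ‖z‖ ^ 2 ≤ G y z z := fun z => Near.pos hc hN hy
  have hs0 : s ≠ 0 := by
    intro h0
    rw [h0] at hang
    simp at hang
    linarith
  have hsp : 0 < s := lt_of_le_of_ne (Real.sqrt_nonneg _) (Ne.symm hs0)
  have hv2 : s ^ 2 = G y v v := Real.sq_sqrt (le_trans (by positivity) (hpos v))
  have hw2 : s ^ 2 = G y w w := by
    rw [hs]
    exact Real.sq_sqrt (le_trans (by positivity) (hpos w))
  have h1 : G y v w ≤ -(s * s) := by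
    have h2 : 0 < s * s := mul_pos hsp hsp
    have h3 := (div_le_iff₀ h2).mp hang
    linarith
  have h2 : G y (v + w) (v + w) = G y v v + G y v w + (G y w v + G y w w) := by
    simp only [map_add, add_apply]
    ring
  have h3 : G y (v + w) (v + w) ≤ 0 := by
    rw [h2, hN.symm y w v, ← hv2, ← hw2]
    nlinarith
  have h4 := hpos (v + w)
  have h5 : ‖v + w‖ ^ 2 ≤ 0 := by linarith
  have h6 : ‖v + w‖ = 0 := by
    have := sq_nonneg ‖v + w‖
    exact pow_eq_zero_iff (two_ne_zero) |>.mp (le_antisymm h5 this)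
  rw [norm_eq_zero] at h6
  refine ⟨?_, ?_⟩
  · rintro rfl
    rw [hsdef] at hs0
    simp at hs0
  · rw [eq_neg_iff_add_eq_zero, add_comm]
    exact h6

end Pool.Agent.T6.H32.OP
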