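import Pool.Agent.T6.H32.OP.Defs

/-!
# Project OP, module CMP: comparison of the distances
-/

set_option autoImplicit false
set_option maxSynthPendingDepth 3

open scoped RealInnerProductSpace Topology Interval ContDiff
open MeasureTheory
open Pool.Agent.V11191.Opp (E3 IsPath Good Fr gc PP uu Agen)

namespace Pool.Agent.T6.H32.OP

namespace CMPx

theorem mu_pos {u : E3 → ℝ} {M ε μ δ : ℝ} (hC : Cst u M ε μ δ) : 0 < μ := by
  rw [hC.mu]
  exact mul_pos hC.eps (lt_of_lt_of_le one_pos hC.good.one_le)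

theorem ub {u : E3 → ℝ} {M ε μ δ : ℝ} (hC : Cst u M ε μ δ) {p : E3} (hp : ‖p‖ = 1) :
    |ε * u p| ≤ μ := by
  rw [abs_mul, abs_of_pos hC.eps, hC.mu]
  exact mul_le_mul_of_nonneg_left (hC.good.bound _ hp) hC.eps.le

theorem ptw {G : E3 → Bil} {u : E3 → ℝ} {M ε μ δ : ℝ} (hC : Cst u M ε μ δ)
    (hN : Near G u ε δ) (p v : E3) (hp : ‖p‖ = 1) :
    Real.sqrt (G p v v) ≤ (1 + μ ^ 2) * (Real.exp (ε * u p) * ‖v‖) := by
  have h1 := (abs_le.1 (hN.h0 p v v hp)).2
  rw [real_inner_self_eq_norm_sq] at h1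
  have e1 : Real.exp (2 * (ε * u p)) = Real.exp (ε * u p) ^ 2 := by
    rw [← Real.exp_nat_mul]; norm_num
  rw [e1] at h1
  have h3 := (Pool.Agent.V11191.Opp.exp_bounds (by linarith [hC.small]) (ub hC hp)).1
  have hμ0 := mu_pos hC
  have hμ := hC.small
  have hδ := hC.del
  have hE : 999 / 1000 ≤ Real.exp (ε * u p) := by linarith
  have hE2 : 1 / 2 ≤ Real.exp (ε * u p) ^ 2 := by nlinarith
  have h2 : G p v v ≤ ((1 + μ ^ 2) * (Real.exp (ε * u p) * ‖v‖)) ^ 2 := by
    have hv : 0 ≤ ‖v‖ ^ 2 := sq_nonneg _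
    have a1 : δ * ‖v‖ ^ 2 ≤ μ ^ 2 * ‖v‖ ^ 2 := mul_le_mul_of_nonneg_right hδ hv
    have a2 : 1 / 2 * (μ ^ 2 * ‖v‖ ^ 2) ≤ Real.exp (ε * u p) ^ 2 * (μ ^ 2 * ‖v‖ ^ 2) :=
      mul_le_mul_of_nonneg_right hE2 (by positivity)
    have a3 : 0 ≤ μ ^ 4 * (Real.exp (ε * u p) ^ 2 * ‖v‖ ^ 2) := by positivity
    nlinarith
  rw [← Real.sqrt_sq (by positivity : 0 ≤ (1 + μ ^ 2) * (Real.exp (ε * u p) * ‖v‖))]
  exact Real.sqrt_le_sqrt h2

end CMPx

open CMPx

theorem cmp : CMPStm := by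
  intro G u M ε μ δ hC hN x y hx hy
  have hpos : 0 < 1 + μ ^ 2 := by positivity
  have key : ∀ c, IsPath c y x → glen G c ≤
      (1 + μ ^ 2) * Pool.Agent.V11191.Opp.len (fun p => ε * u p) c := by
    intro c hc
    unfold glen Pool.Agent.V11191.Opp.len
    rw [← intervalIntegral.integral_const_mul]
    have hcc : Continuous c := hc.c1.continuous
    have hcd : Continuous (deriv c) := hc.c1.continuous_deriv le_rfl
    have huc : Continuous u := hC.good.smooth.continuous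
    have hG : Continuous G := hN.c1.continuous
    have hGc : Continuous fun t => G (c t) (deriv c t) (deriv c t) :=
      ((hG.comp hcc).clm_apply hcd).clm_apply hcd
    have k1 : Continuous fun t => Real.sqrt (G (c t) (deriv c t) (deriv c t)) :=
      Real.continuous_sqrt.comp hGc
    have k2 : Continuous fun t => (1 + μ ^ 2) * (Real.exp (ε * u (c t)) * ‖deriv c t‖) := by
      fun_prop
    refine intervalIntegral.integral_mono_on (by norm_num) (k1.intervalIntegrable _ _)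
      (k2.intervalIntegrable _ _) ?_
    intro t ht
    have hn : ‖c t‖ = 1 := by
      have := hc.mem t ht
      rwa [mem_sphere_zero_iff_norm] at this
    exact ptw hC hN (c t) (deriv c t) hn
  have hg : ∀ c, IsPath c y x → grho G y x ≤ glen G c := by
    intro c hc
    refine csInf_le ⟨0, ?_⟩ ⟨c, hc, rfl⟩
    rintro L ⟨c', _, rfl⟩
    exact intervalIntegral.integral_nonneg (by norm_num) fun _ _ => Real.sqrt_nonneg _
  obtain ⟨s, b, -, -, hb, hyb, hxe⟩ := Pool.Agent.V11191.Opp.exists_dir hy hx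
  have h1 : grho G y x / (1 + μ ^ 2) ≤
      Pool.Agent.V11191.Opp.rho (fun p => ε * u p) y x := by
    refine le_csInf ⟨_, fun t => gc y b (s * t), ?_, rfl⟩ ?_
    · rw [hxe]
      exact Pool.Agent.V11191.Opp.arc_path hy hb hyb s
    · rintro L ⟨c, hc, rfl⟩
      rw [div_le_iff₀ hpos]
      have := (hg c hc).trans (key c hc)
      linarith
  rw [div_le_iff₀ hpos] at h1
  linarith

end Pool.Agent.T6.H32.OP
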