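import Pool.Agent.T6.H32.OP.MDL

/-!
Project OP (helper32), module CUT: metrics near the model have extensions to `ℝ³` with the property
`Near`.
-/

set_option autoImplicit false
set_option maxSynthPendingDepth 3

open scoped RealInnerProductSpace Topology Interval ContDiff
open MeasureTheory
open Pool.Agent.V11191.Opp (E3 uu uu_smooth)

namespace Pool.Agent.T6.H32.OP

namespace CUTx

open MDLx

/-- the cut off function -/
noncomputable def chi (p : E3) : ℝ := Real.smoothTransition (4 * ‖p‖ ^ 2 - 1)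

theorem chi_smooth : ContDiff ℝ ∞ chi := by
  have h : ContDiff ℝ ∞ (fun p : E3 => 4 * ‖p‖ ^ 2 - 1) :=
    (contDiff_const.mul (contDiff_norm_sq ℝ)).sub contDiff_const
  exact (Real.smoothTransition.contDiff (n := ⊤)).comp h

theorem chi_one {p : E3} (hp : 1 ≤ 4 * ‖p‖ ^ 2 - 1) : chi p = 1 :=
  Real.smoothTransition.one_of_one_le hp

theorem chi_zero {p : E3} (hp : 4 * ‖p‖ ^ 2 - 1 ≤ 0) : chi p = 0 :=
  Real.smoothTransition.zero_of_nonpos hp

/-- the rank one form -/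
noncomputable def R1 (p : E3) : Bil := (innerSL ℝ p).smulRight (innerSL ℝ p)

theorem R1_apply (p v w : E3) : R1 p v w = ⟪p, v⟫ * ⟪p, w⟫ := by
  unfold R1
  simp only [ContinuousLinearMap.smulRight_apply, ContinuousLinearMap.smul_apply,
    innerSL_apply_apply, smul_eq_mul]

/-- the extension -/
noncomputable def ext (ε : ℝ) (g : E3 → Bil) (p : E3) : Bil :=
  chi p • g p + Real.exp (2 * (ε * uu p)) • R1 p

theorem ext_smooth (ε : ℝ) {g : E3 → Bil} (hg : ContDiffOn ℝ ∞ g {0}ᶜ) :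
    ContDiff ℝ 1 (ext ε g) := by
  have h1 : ContDiff ℝ 1 (fun p : E3 => Real.exp (2 * (ε * uu p)) • R1 p) := by
    have h2 : ContDiff ℝ ∞ (fun p : E3 => Real.exp (2 * (ε * uu p))) :=
      (contDiff_const.mul (contDiff_const.mul uu_smooth)).exp
    exact (h2.smul r1_smooth).of_le (by exact_mod_cast le_top)
  have h3 : ContDiff ℝ 1 (fun p : E3 => chi p • g p) := by
    rw [contDiff_iff_contDiffAt]
    intro p
    by_cases hp : p = 0
    · subst hp
      have h4 : (fun p : E3 => chi p • g p) =ᶠ[𝓝 0] fun _ => 0 := by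
        have h5 : Metric.ball (0 : E3) (1 / 2) ∈ 𝓝 (0 : E3) := Metric.ball_mem_nhds _ (by norm_num)
        filter_upwards [h5] with q hq
        have h6 : ‖q‖ < 1 / 2 := by simpa using hq
        have h7 := norm_nonneg q
        rw [chi_zero (by nlinarith), zero_smul]
      exact (contDiffAt_const (c := (0 : Bil))).congr_of_eventuallyEq h4
    · have h4 : ContDiffAt ℝ ∞ g p := hg.contDiffAt (isOpen_compl_singleton.mem_nhds hp)
      have h5 : ContDiffAt ℝ ∞ (fun p : E3 => chi p • g p) p := chi_smooth.contDiffAt.smul h4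
      exact h5.of_le (by exact_mod_cast le_top)
  exact h3.add h1

theorem line_deriv {F : E3 → Bil} {p : E3} (a v : E3) (hF : DifferentiableAt ℝ F p) :
    HasDerivAt (fun s : ℝ => F (p + s • a) v v) (fderiv ℝ F p a v v) 0 := by
  have h1 : HasDerivAt (fun s : ℝ => p + s • a) a 0 := by
    simpa using ((hasDerivAt_id (0 : ℝ)).smul_const a).const_add p
  have h2 : HasFDerivAt F (fderiv ℝ F p) (p + (0 : ℝ) • a) := by
    simpa using hF.hasFDerivAt
  have h3 : HasDerivAt (fun s : ℝ => F (p + s • a)) (fderiv ℝ F p a) 0 :=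
    h2.comp_hasDerivAt 0 h1
  have h4 := (h3.clm_apply (hasDerivAt_const (0 : ℝ) v)).clm_apply (hasDerivAt_const (0 : ℝ) v)
  simpa using h4

theorem line (p a : E3) : HasDerivAt (fun s : ℝ => p + s • a) a 0 := by
  simpa using ((hasDerivAt_id (0 : ℝ)).smul_const a).const_add p

theorem norm_deriv {p a : E3} (hp : ‖p‖ = 1) (ha : ⟪p, a⟫ = 0) :
    HasDerivAt (fun s : ℝ => ‖p + s • a‖) 0 0 := by
  have h1 := (line p a).norm_sq
  have h2 : (fun s : ℝ => ‖p + s • a‖) = fun s : ℝ => Real.sqrt (‖p + s • a‖ ^ 2) := by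
    funext s
    rw [Real.sqrt_sq (norm_nonneg _)]
  rw [h2]
  have h3 := h1.sqrt (by simp [hp])
  convert h3 using 1
  simp [ha]

theorem inner_deriv (p a v : E3) : HasDerivAt (fun s : ℝ => ⟪p + s • a, v⟫) ⟪a, v⟫ 0 := by
  have h := (line p a).inner ℝ (hasDerivAt_const (0 : ℝ) v)
  simpa using h

theorem uu_diff (p : E3) : HasFDerivAt uu (fderiv ℝ uu p) p :=
  (uu_smooth.differentiable (by simp) p).hasFDerivAt

theorem e2_deriv (ε : ℝ) (p a : E3) :
    HasDerivAt (fun s : ℝ => Real.exp (2 * (ε * uu (p + s • a))))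
      (Real.exp (2 * (ε * uu p)) * (2 * (ε * fderiv ℝ uu p a))) 0 := by
  have h2 : HasFDerivAt uu (fderiv ℝ uu p) (p + (0 : ℝ) • a) := by
    simpa using uu_diff p
  have h3' := HasFDerivAt.comp_hasDerivAt (0 : ℝ) h2 (line p a)
  have h3 : HasDerivAt (fun s : ℝ => uu (p + s • a)) (fderiv ℝ uu p a) 0 := h3'
  have h4 := ((h3.const_mul ε).const_mul 2).exp
  simpa using h4

theorem e1_deriv (ε : ℝ) {p a : E3} (hp : ‖p‖ = 1) (ha : ⟪p, a⟫ = 0) :
    HasDerivAt (fun s : ℝ => Real.exp (2 * (ε * uu (‖p + s • a‖⁻¹ • (p + s • a)))))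
      (Real.exp (2 * (ε * uu p)) * (2 * (ε * fderiv ℝ uu p a))) 0 := by
  have hn := norm_deriv hp ha
  have h0 : ‖p + (0 : ℝ) • a‖ = 1 := by simpa using hp
  have h1 : HasDerivAt (fun s : ℝ => ‖p + s • a‖⁻¹ • (p + s • a)) a 0 := by
    have h2 := (hn.inv (by rw [h0]; norm_num)).smul (line p a)
    have h3 : HasDerivAt (fun s : ℝ => ‖p + s • a‖⁻¹ • (p + s • a)) (‖p + (0 : ℝ) • a‖⁻¹ • a +
      (-0 / ‖p + (0 : ℝ) • a‖ ^ 2) • (p + (0 : ℝ) • a)) 0 := h2
    rw [h0] at h3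
    simpa using h3
  have h2 : HasFDerivAt uu (fderiv ℝ uu p) (‖p + (0 : ℝ) • a‖⁻¹ • (p + (0 : ℝ) • a)) := by
    rw [h0]
    simpa using uu_diff p
  have h3' := HasFDerivAt.comp_hasDerivAt (0 : ℝ) h2 h1
  have h3 : HasDerivAt (fun s : ℝ => uu (‖p + s • a‖⁻¹ • (p + s • a))) (fderiv ℝ uu p a) 0 := h3'
  have h4 := ((h3.const_mul ε).const_mul 2).exp
  convert h4 using 1
  simp [hp]

end CUTx

open MDLx CUTx in
/-- **CUT** -/
theorem cut : CUTStm := by
  intro ε δ hδ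
  refine ⟨δ, hδ, ?_⟩
  intro G hG0 hG1
  have hchi : ∀ p : E3, ‖p‖ = 1 → chi p = 1 := fun p hp => chi_one (by rw [hp]; norm_num)
  have hne : ∀ p : E3, ‖p‖ = 1 → p ≠ 0 := by
    rintro p hp rfl
    simp at hp
  have hval : ∀ p v w : E3, ‖p‖ = 1 → ext ε G.g p v w =
      G.g p v w + Real.exp (2 * (ε * uu p)) * (⟪p, v⟫ * ⟪p, w⟫) := by
    intro p v w hp
    unfold ext
    rw [hchi p hp, one_smul]
    simp only [ContinuousLinearMap.add_apply, ContinuousLinearMap.smul_apply, R1_apply,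
      smul_eq_mul]
  have hmdl : ∀ p v w : E3, ‖p‖ = 1 → mdl ε p v w =
      Real.exp (2 * (ε * uu p)) * (⟪v, w⟫ - ⟪p, v⟫ * ⟪p, w⟫) := by
    intro p v w hp
    rw [mdl_apply (hne p hp), hp]
    simp
  refine ⟨ext ε G.g, ⟨ext_smooth ε G.smooth, ?_, ?_, ?_⟩, ?_⟩
  · intro p v w
    unfold ext
    simp only [ContinuousLinearMap.add_apply, ContinuousLinearMap.smul_apply, R1_apply,
      smul_eq_mul]
    rw [G.symm p v w]
    ring
  · intro p v w hp
    have h1 : ext ε G.g p v w - Real.exp (2 * (ε * uu p)) * ⟪v, w⟫ = (G.g p - mdl ε p) v w := by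
      rw [hval p v w hp]
      simp only [ContinuousLinearMap.sub_apply]
      rw [hmdl p v w hp]
      ring
    rw [h1, ← Real.norm_eq_abs]
    refine ((G.g p - mdl ε p).le_opNorm₂ v w).trans ?_
    gcongr
    exact hG0 p hp
  · intro p a v hp ha
    have dG : DifferentiableAt ℝ G.g p :=
      (G.smooth.contDiffAt (isOpen_compl_singleton.mem_nhds (hne p hp))).differentiableAt (by simp)
    have dM : DifferentiableAt ℝ (mdl ε) p :=
      ((mdl_smooth ε).contDiffAt (isOpen_compl_singleton.mem_nhds (hne p hp))).differentiableAt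
        (by simp)
    have dE : DifferentiableAt ℝ (ext ε G.g) p :=
      (ext_smooth ε G.smooth).contDiffAt.differentiableAt (by simp)
    have lG := line_deriv a v dG
    have lM := line_deriv a v dM
    have lE := line_deriv a v dE
    have hin := inner_deriv p a v
    have h0 : p + (0 : ℝ) • a = p := by simp
    -- the extension
    have k1 : HasDerivAt (fun s : ℝ => G.g (p + s • a) v v + Real.exp (2 * (ε * uu (p + s • a))) *
        ⟪p + s • a, v⟫ ^ 2) (fderiv ℝ G.g p a v v +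
          (Real.exp (2 * (ε * uu p)) * (2 * (ε * fderiv ℝ uu p a)) * ⟪p, v⟫ ^ 2 +
            Real.exp (2 * (ε * uu p)) * (2 * ⟪p, v⟫ * ⟪a, v⟫))) 0 := by
      have k2 : HasDerivAt (fun s : ℝ => G.g (p + s • a) v v +
          Real.exp (2 * (ε * uu (p + s • a))) * ⟪p + s • a, v⟫ ^ 2) _ 0 :=
        lG.add ((e2_deriv ε p a).mul (hin.pow 2))
      refine k2.congr_deriv ?_
      simp only [h0, Pi.pow_apply]
      norm_num
    have hcont : ContinuousAt (fun s : ℝ => ‖p + s • a‖) 0 := (norm_deriv hp ha).continuousAt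
    have hev : ∀ᶠ s : ℝ in 𝓝 0, 9 / 10 < ‖p + s • a‖ := by
      apply hcont.eventually_const_lt
      show 9 / 10 < ‖p + (0 : ℝ) • a‖
      rw [h0, hp]
      norm_num
    have k3 : (fun s : ℝ => ext ε G.g (p + s • a) v v) =ᶠ[𝓝 0]
        (fun s : ℝ => G.g (p + s • a) v v + Real.exp (2 * (ε * uu (p + s • a))) *
        ⟪p + s • a, v⟫ ^ 2) := by
      filter_upwards [hev] with s hs
      unfold ext
      rw [chi_one (by nlinarith), one_smul]
      simp only [ContinuousLinearMap.add_apply, ContinuousLinearMap.smul_apply, R1_apply,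
        smul_eq_mul]
      ring
    have e1 := (k1.congr_of_eventuallyEq k3).unique lE
    -- the model
    have k4 : HasDerivAt (fun s : ℝ => Real.exp (2 * (ε * uu (‖p + s • a‖⁻¹ • (p + s • a)))) *
        (‖v‖ ^ 2 - (‖p + s • a‖ ^ 2)⁻¹ * ⟪p + s • a, v⟫ ^ 2))
        (Real.exp (2 * (ε * uu p)) * (2 * (ε * fderiv ℝ uu p a)) * (‖v‖ ^ 2 - ⟪p, v⟫ ^ 2) +
          Real.exp (2 * (ε * uu p)) * (-(2 * ⟪p, v⟫ * ⟪a, v⟫))) 0 := by
      have hn := norm_deriv hp ha
      have k5 : HasDerivAt (fun s : ℝ => (‖p + s • a‖ ^ 2)⁻¹) 0 0 := by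
        have k8 : HasDerivAt (fun s : ℝ => (‖p + s • a‖ ^ 2)⁻¹) _ 0 :=
          (hn.pow 2).inv (by show ‖p + (0 : ℝ) • a‖ ^ 2 ≠ 0; rw [h0, hp]; norm_num)
        refine k8.congr_deriv ?_
        simp
      have k6 : HasDerivAt (fun s : ℝ =>
          Real.exp (2 * (ε * uu (‖p + s • a‖⁻¹ • (p + s • a)))) *
          (‖v‖ ^ 2 - (‖p + s • a‖ ^ 2)⁻¹ * ⟪p + s • a, v⟫ ^ 2)) _ 0 :=
        (e1_deriv ε hp ha).mul ((k5.mul (hin.pow 2)).const_sub (‖v‖ ^ 2))
      refine k6.congr_deriv ?_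
      simp only [h0, hp, Pi.pow_apply]
      norm_num
    have k7 : (fun s : ℝ => mdl ε (p + s • a) v v) =ᶠ[𝓝 0]
        (fun s : ℝ => Real.exp (2 * (ε * uu (‖p + s • a‖⁻¹ • (p + s • a)))) *
        (‖v‖ ^ 2 - (‖p + s • a‖ ^ 2)⁻¹ * ⟪p + s • a, v⟫ ^ 2)) := by
      filter_upwards [hev] with s hs
      have hs0 : p + s • a ≠ 0 := by
        intro h
        rw [h] at hs
        norm_num at hs
      rw [mdl_apply hs0, real_inner_self_eq_norm_sq]
      ring
    have e2 := (k4.congr_of_eventuallyEq k7).unique lM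
    have e3 : fderiv ℝ (ext ε G.g) p a v v -
        2 * Real.exp (2 * (ε * uu p)) * (ε * fderiv ℝ uu p a) * ‖v‖ ^ 2 =
        (fderiv ℝ G.g p - fderiv ℝ (mdl ε) p) a v v := by
      simp only [ContinuousLinearMap.sub_apply]
      rw [← e1, ← e2]
      ring
    rw [e3, ← Real.norm_eq_abs]
    refine (((fderiv ℝ G.g p - fderiv ℝ (mdl ε) p) a).le_opNorm₂ v v).trans ?_
    have h5 := (fderiv ℝ G.g p - fderiv ℝ (mdl ε) p).le_opNorm a
    have h6 : ‖(fderiv ℝ G.g p - fderiv ℝ (mdl ε) p) a‖ ≤ δ * ‖a‖ :=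
      h5.trans (mul_le_mul_of_nonneg_right (hG1 p hp) (norm_nonneg a))
    calc ‖(fderiv ℝ G.g p - fderiv ℝ (mdl ε) p) a‖ * ‖v‖ * ‖v‖
        ≤ δ * ‖a‖ * ‖v‖ * ‖v‖ := by gcongr
      _ = δ * ‖a‖ * ‖v‖ ^ 2 := by ring
  · intro p v w hp hv hw
    rw [hval p v w hp, hv, zero_mul, mul_zero, add_zero]

end Pool.Agent.T6.H32.OP
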