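import Mathlib
import Pool.Agent.V11191.Opp.Final

/-!
MP_da270e_gt, Q2 (helper32): the Riemannian metrics on the sphere with property (O) are not dense.
Definitions and the statements of the modules.
-/

set_option autoImplicit false
set_option maxSynthPendingDepth 3

open scoped RealInnerProductSpace Topology Interval ContDiff
open MeasureTheory
open Pool.Agent.V11191.Opp (E3 IsPath Good Fr gc PP uu Agen)

namespace Pool.Agent.T6.H32.OP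

/-- Bilinear forms on `ℝ³`. -/
abbrev Bil : Type := E3 →L[ℝ] E3 →L[ℝ] ℝ

/-- Length of a path for a family `G` of bilinear forms. -/
noncomputable def glen (G : E3 → Bil) (c : ℝ → E3) : ℝ :=
  ∫ t in (0 : ℝ)..1, Real.sqrt (G (c t) (deriv c t) (deriv c t))

/-- Intrinsic distance on the unit sphere: the infimum of the lengths of the `C¹` paths in the
sphere from `p` to `q`. -/
noncomputable def grho (G : E3 → Bil) (p q : E3) : ℝ :=
  sInf {L | ∃ c, IsPath c p q ∧ L = glen G c}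

/-- `c` is a segment from `p` to `q`, i.e. a shortest path, parametrized on `[0,1]`
proportionally to arc length. -/
structure GSeg (G : E3 → Bil) (c : ℝ → E3) (p q : E3) : Prop where
  /-- it is a path from `p` to `q` -/
  path : IsPath c p q
  /-- it has constant speed, equal to the distance from `p` to `q` -/
  speed : ∀ t ∈ Set.Icc (0 : ℝ) 1,
    Real.sqrt (G (c t) (deriv c t) (deriv c t)) = grho G p q

/-- The angle at `y` between the tangent vectors `v` and `w`. -/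
noncomputable def gang (G : E3 → Bil) (y v w : E3) : ℝ :=
  Real.arccos (G y v w / (Real.sqrt (G y v v) * Real.sqrt (G y w w)))

/-- `y` is critical with respect to `x`: for every nonzero tangent vector `τ` at `y` some segment
from `y` to `x` has at `y` a tangent direction making an angle at most `π/2` with `τ`. -/
def GCrit (G : E3 → Bil) (x y : E3) : Prop :=
  ∀ τ : E3, ⟪τ, y⟫ = 0 → τ ≠ 0 →
    ∃ c, GSeg G c y x ∧ gang G y (deriv c 0) τ ≤ Real.pi / 2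

/-- Property (O): there are points `x ≠ y` with `y` critical with respect to `x` and two segments
from `y` to `x` whose tangent directions at `y` make the angle `π`. -/
def PropO (G : E3 → Bil) : Prop :=
  ∃ x ∈ Metric.sphere (0 : E3) 1, ∃ y ∈ Metric.sphere (0 : E3) 1, x ≠ y ∧ GCrit G x y ∧
    ∃ c₁ c₂, GSeg G c₁ y x ∧ GSeg G c₂ y x ∧
      gang G y (deriv c₁ 0) (deriv c₂ 0) = Real.pi

/-- A smooth Riemannian metric on the unit sphere of `ℝ³`, i.e. a smooth family of inner products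
on its tangent planes. It is given by its unique extension to bilinear forms on `ℝ³`, at all
points of `ℝ³ ∖ {0}`, which is constant on rays and vanishes on radial vectors. -/
structure SMetric where
  /-- the family of bilinear forms -/
  g : E3 → Bil
  /-- it is smooth away from the origin -/
  smooth : ContDiffOn ℝ ∞ g {0}ᶜ
  /-- it is constant on rays -/
  ray : ∀ (r : ℝ) (p : E3), 0 < r → g (r • p) = g p
  /-- radial vectors are in the kernel -/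
  radial : ∀ p v, g p p v = 0
  /-- it is symmetric -/
  symm : ∀ p v w, g p v w = g p w v
  /-- it is positive definite on the tangent planes -/
  pos : ∀ p v, ‖p‖ = 1 → ⟪p, v⟫ = 0 → v ≠ 0 → 0 < g p v v
  /-- normalisation at the origin -/
  zero : g 0 = 0

/-- The `C^∞` topology on the space of metrics: uniform convergence on the (compact) sphere of the
derivatives of all orders. -/
noncomputable instance : TopologicalSpace SMetric :=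
  ⨅ k : ℕ, TopologicalSpace.induced
    (fun G : SMetric => UniformFun.ofFun
      (fun p : Metric.sphere (0 : E3) 1 => iteratedFDeriv ℝ k G.g (p : E3))) inferInstance

/-- `G` is `C¹`-close, on the sphere, to the conformal metric `e^{2 ε u} g₀`. -/
structure Near (G : E3 → Bil) (u : E3 → ℝ) (ε δ : ℝ) : Prop where
  c1 : ContDiff ℝ 1 G
  symm : ∀ p v w, G p v w = G p w v
  h0 : ∀ p v w, ‖p‖ = 1 → |G p v w - Real.exp (2 * (ε * u p)) * ⟪v, w⟫| ≤ δ * ‖v‖ * ‖w‖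
  h1 : ∀ p a v, ‖p‖ = 1 → ⟪p, a⟫ = 0 →
    |fderiv ℝ G p a v v - 2 * Real.exp (2 * (ε * u p)) * (ε * fderiv ℝ u p a) * ‖v‖ ^ 2| ≤
      δ * ‖a‖ * ‖v‖ ^ 2

/-- The standing hypotheses on the constants. -/
structure Cst (u : E3 → ℝ) (M ε μ δ : ℝ) : Prop where
  good : Good u M
  eps : 0 < ε
  mu : μ = ε * M
  small : μ ≤ 1 / 2000
  del0 : 0 ≤ δ
  del : δ ≤ μ ^ 2

/-! ## Module statements -/

/-- EL: the Euler-Lagrange equation in integrated form. -/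
def ELStm : Prop := ∀ G : E3 → Bil, ContDiff ℝ 1 G → (∀ p v w, G p v w = G p w v) →
  (∀ p v, ‖p‖ = 1 → 0 ≤ G p v v) → ∀ (γ : ℝ → E3) (p q : E3), GSeg G γ p q →
  ∀ a b : E3, ‖a‖ = 1 → ‖b‖ = 1 → ⟪a, b⟫ = 0 → ∀ t ∈ Set.Icc (0 : ℝ) 1,
    G (γ t) (deriv γ t) (Agen a b (γ t)) = G (γ 0) (deriv γ 0) (Agen a b (γ 0)) +
      ∫ s in (0 : ℝ)..t, (1 / 2 * fderiv ℝ G (γ s) (Agen a b (γ s)) (deriv γ s) (deriv γ s) +
        G (γ s) (deriv γ s) (Agen a b (deriv γ s)))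

/-- MOM: speed and momenta of a segment. -/
def MOMStm : Prop := ∀ (G : E3 → Bil) (u : E3 → ℝ) (M ε μ δ d : ℝ), Cst u M ε μ δ →
  Near G u ε δ → 0 < d → d ≤ 4 → ∀ (γ : ℝ → E3) (p q : E3), GSeg G γ p q → grho G p q = d →
  (∀ t ∈ Set.Icc (0 : ℝ) 1, |Real.exp (ε * u (γ t)) * ‖deriv γ t‖ - d| ≤ 2 * μ ^ 2 * d) ∧
  ∀ a b : E3, ‖a‖ = 1 → ‖b‖ = 1 → ⟪a, b⟫ = 0 → ∀ t ∈ Set.Icc (0 : ℝ) 1,
    |Real.exp (2 * (ε * u (γ t))) * ⟪deriv γ t, Agen a b (γ t)⟫ -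
      Real.exp (2 * (ε * u (γ 0))) * ⟪deriv γ 0, Agen a b (γ 0)⟫| ≤ 5 * μ * d

/-- SEG: the estimates along one segment, from the estimates of speed and momenta. -/
def SEGStm : Prop := ∀ (u : E3 → ℝ) (M ε μ d : ℝ), Good u M → 0 < ε → μ = ε * M →
  μ ≤ 1 / 2000 → 0 < d → d ≤ 4 → ∀ (γ : ℝ → E3) (y τ n : E3), Fr y τ n → ContDiff ℝ 1 γ →
  (∀ t ∈ Set.Icc (0 : ℝ) 1, ‖γ t‖ = 1) → γ 0 = y → ∀ v : ℝ, 0 < v → deriv γ 0 = v • τ →
  (∀ t ∈ Set.Icc (0 : ℝ) 1, |Real.exp (ε * u (γ t)) * ‖deriv γ t‖ - d| ≤ 2 * μ ^ 2 * d) →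
  (∀ a b : E3, ‖a‖ = 1 → ‖b‖ = 1 → ⟪a, b⟫ = 0 → ∀ t ∈ Set.Icc (0 : ℝ) 1,
    |Real.exp (2 * (ε * u (γ t))) * ⟪deriv γ t, Agen a b (γ t)⟫ -
      Real.exp (2 * (ε * u (γ 0))) * ⟪deriv γ 0, Agen a b (γ 0)⟫| ≤ 5 * μ * d) →
  ∃ A : ℝ → ℝ, (∀ t ∈ Set.Icc (0 : ℝ) 1,
      |⟪n, γ t⟫| ≤ 11 * μ ∧
      γ t = (Real.sqrt (1 - ⟪n, γ t⟫ ^ 2) * Real.cos (A t)) • y +
        (Real.sqrt (1 - ⟪n, γ t⟫ ^ 2) * Real.sin (A t)) • τ + ⟪n, γ t⟫ • n ∧
      |A t - d * t| ≤ 36 * μ) ∧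
    0 < A 1 ∧
    A 1 * (1 - 124 * μ ^ 2) ≤ d * ∫ t in (0 : ℝ)..1, Real.exp (-(ε * u (γ t)))

/-- CMP: comparison of the distances. -/
def CMPStm : Prop := ∀ (G : E3 → Bil) (u : E3 → ℝ) (M ε μ δ : ℝ), Cst u M ε μ δ →
  Near G u ε δ → ∀ x y : E3, ‖x‖ = 1 → ‖y‖ = 1 →
    grho G y x ≤ (1 + μ ^ 2) * Pool.Agent.V11191.Opp.rho (fun p => ε * u p) y x

/-- ANG: opposite directions. -/
def ANGStm : Prop := ∀ (G : E3 → Bil) (u : E3 → ℝ) (M ε μ δ : ℝ), Cst u M ε μ δ →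
  Near G u ε δ → ∀ (y v w : E3), ‖y‖ = 1 → gang G y v w = Real.pi →
    Real.sqrt (G y v v) = Real.sqrt (G y w w) → v ≠ 0 ∧ w = -v

/-- LOW: lower bound for the distance in the presence of two opposite segments. -/
def LOWStm : Prop := ∀ (G : E3 → Bil) (u : E3 → ℝ) (M ε μ δ : ℝ), Cst u M ε μ δ →
  Near G u ε δ → ∀ x y : E3, ‖x‖ = 1 → ‖y‖ = 1 → x ≠ y → ∀ γ₁ γ₂ : ℝ → E3,
    GSeg G γ₁ y x → GSeg G γ₂ y x → gang G y (deriv γ₁ 0) (deriv γ₂ 0) = Real.pi →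
    ‖x + y‖ ≤ 60 * μ ∧ Real.pi - 1000 * μ ^ 2 ≤ grho G y x

/-- KEY: the consequence of property (O). -/
def KEYStm : Prop := ∀ (G : E3 → Bil) (M ε μ δ : ℝ), Cst uu M ε μ δ → Near G uu ε δ →
  PropO G → ∃ y τ n w : E3, Fr y τ n ∧ ‖w‖ ≤ 60 * M ∧ ∀ a b : ℝ, a ^ 2 + b ^ 2 = 1 →
    |PP y (a • τ + b • n) - ⟪w, a • τ + b • n⟫| ≤ 90000 * M * μ

/-- UNI: the third and fifth harmonics do not vanish simultaneously, uniformly. -/
def UNIStm : Prop := ∀ R : ℝ, ∃ c₀ : ℝ, 0 < c₀ ∧ ∀ y τ n w : E3, Fr y τ n → ‖w‖ ≤ R →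
  ∃ a b : ℝ, a ^ 2 + b ^ 2 = 1 ∧ c₀ ≤ |PP y (a • τ + b • n) - ⟪w, a • τ + b • n⟫|

/-- MAIN: metrics near `e^{2 ε u} g₀` do not have property (O). -/
def MAINStm : Prop := ∃ ε δ : ℝ, 0 < ε ∧ 0 < δ ∧ ∀ G : E3 → Bil, Near G uu ε δ → ¬ PropO G

/-- PRS: property (O) depends only on the restriction to the tangent planes of the sphere. -/
def PRSStm : Prop := ∀ G G' : E3 → Bil,
  (∀ p v w, ‖p‖ = 1 → ⟪p, v⟫ = 0 → ⟪p, w⟫ = 0 → G p v w = G' p v w) → PropO G → PropO G'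

/-- the inner product as a bilinear form -/
noncomputable def IB : Bil :=
  ∑ i : Fin 3, (EuclideanSpace.proj i : E3 →L[ℝ] ℝ).smulRight (EuclideanSpace.proj i : E3 →L[ℝ] ℝ)

theorem IB_apply (v w : E3) : IB v w = ⟪v, w⟫ := by
  simp [IB, PiLp.inner_apply, mul_comm, Fin.sum_univ_three]

/-- the model metric `e^{2 ε u(p/|p|)} (⟨v,w⟩ - ⟨p,v⟩⟨p,w⟩/|p|²)` -/
noncomputable def mdl (ε : ℝ) (p : E3) : Bil :=
  if p = 0 then 0 else Real.exp (2 * (ε * uu (‖p‖⁻¹ • p))) •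
    (IB - (‖p‖ ^ 2)⁻¹ • ((innerSL ℝ p).smulRight (innerSL ℝ p)))

/-- MDL: it is a metric. -/
def MDLStm : Prop := ∀ ε : ℝ, ∃ G₀ : SMetric, G₀.g = mdl ε

/-- CUT: metrics near the model have extensions to `ℝ³` with the property `Near`. -/
def CUTStm : Prop := ∀ ε δ : ℝ, 0 < δ → ∃ η : ℝ, 0 < η ∧ ∀ G : SMetric,
  (∀ p : E3, ‖p‖ = 1 → ‖G.g p - mdl ε p‖ ≤ η) →
  (∀ p : E3, ‖p‖ = 1 → ‖fderiv ℝ G.g p - fderiv ℝ (mdl ε) p‖ ≤ η) →
  ∃ G' : E3 → Bil, Near G' uu ε δ ∧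
    ∀ p v w, ‖p‖ = 1 → ⟪p, v⟫ = 0 → ⟪p, w⟫ = 0 → G.g p v w = G' p v w

/-- TOP: a set which misses a `C¹`-neighbourhood of a metric is not dense. -/
def TOPStm : Prop := ∀ (S : Set SMetric) (G₀ : SMetric) (η : ℝ), 0 < η →
  (∀ G : SMetric, (∀ p : E3, ‖p‖ = 1 → ‖G.g p - G₀.g p‖ ≤ η) →
    (∀ p : E3, ‖p‖ = 1 → ‖fderiv ℝ G.g p - fderiv ℝ G₀.g p‖ ≤ η) → G ∉ S) → ¬ Dense S

end Pool.Agent.T6.H32.OP
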