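import Mathlib
import Pool.Agent.T6.H32.OP.Defs

/-!
MP_da270e_gt, Q2 (helper32), module EL: the Euler-Lagrange equation of a segment of a `C¹` metric
on the sphere, in integrated form.  (The argument is that of the conformal case in
`Pool.Agent.V11191.Opp.EL`.)
-/

set_option autoImplicit false
set_option maxSynthPendingDepth 3

open scoped RealInnerProductSpace Topology Interval ContDiff
open MeasureTheory
open Pool.Agent.V11191.Opp (E3 IsPath rot Agen rot_curve rot_hasDerivAt rot_norm rot_zero
  deriv_param_integral)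

namespace Pool.Agent.T6.H32.OP

namespace ELx

variable {G : E3 → Bil}

theorem glen_nonneg (G : E3 → Bil) (c : ℝ → E3) : 0 ≤ glen G c :=
  intervalIntegral.integral_nonneg (by norm_num) fun _ _ => Real.sqrt_nonneg _

theorem grho_le {c : ℝ → E3} {p q : E3} (hc : IsPath c p q) : grho G p q ≤ glen G c := by
  refine csInf_le ⟨0, ?_⟩ ⟨c, hc, rfl⟩
  rintro L ⟨c', _, rfl⟩
  exact glen_nonneg _ _

theorem grho_nonneg (G : E3 → Bil) (p q : E3) : 0 ≤ grho G p q :=
  Real.sInf_nonneg (by rintro L ⟨c', _, rfl⟩; exact glen_nonneg _ _)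

/-- energy is at least the square of the distance -/
theorem energy_ge (hG : Continuous G) (hpos : ∀ p v, ‖p‖ = 1 → 0 ≤ G p v v)
    {c : ℝ → E3} {p q : E3} (hc : IsPath c p q) :
    grho G p q ^ 2 ≤ ∫ t in (0 : ℝ)..1, G (c t) (deriv c t) (deriv c t) := by
  have hd : Continuous (deriv c) := hc.c1.continuous_deriv le_rfl
  have hcc : Continuous c := hc.c1.continuous
  have hq : Continuous fun t => G (c t) (deriv c t) (deriv c t) :=
    ((hG.comp hcc).clm_apply hd).clm_apply hd
  have hf : Continuous fun t => Real.sqrt (G (c t) (deriv c t) (deriv c t)) := hq.sqrt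
  set d := grho G p q with hdd
  have h0 : 0 ≤ d := grho_nonneg _ _ _
  have h1 : d ≤ ∫ t in (0 : ℝ)..1, Real.sqrt (G (c t) (deriv c t) (deriv c t)) := grho_le hc
  have h2 : 0 ≤ ∫ t in (0 : ℝ)..1, (Real.sqrt (G (c t) (deriv c t) (deriv c t)) - d) ^ 2 :=
    intervalIntegral.integral_nonneg (by norm_num) fun _ _ => sq_nonneg _
  have h3 : (∫ t in (0 : ℝ)..1, (Real.sqrt (G (c t) (deriv c t) (deriv c t)) - d) ^ 2) =
      (∫ t in (0 : ℝ)..1, G (c t) (deriv c t) (deriv c t)) -
        2 * d * (∫ t in (0 : ℝ)..1, Real.sqrt (G (c t) (deriv c t) (deriv c t))) + d ^ 2 := by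
    have e1 : ∀ t ∈ Set.uIcc (0 : ℝ) 1, (Real.sqrt (G (c t) (deriv c t) (deriv c t)) - d) ^ 2 =
        G (c t) (deriv c t) (deriv c t) -
          2 * d * Real.sqrt (G (c t) (deriv c t) (deriv c t)) + d ^ 2 := fun t ht => by
      rw [Set.uIcc_of_le (by norm_num)] at ht
      have hn : ‖c t‖ = 1 := by
        have := hc.mem t ht
        rwa [mem_sphere_zero_iff_norm] at this
      have := Real.sq_sqrt (hpos (c t) (deriv c t) hn)
      nlinarith [this]
    rw [intervalIntegral.integral_congr e1]
    rw [intervalIntegral.integral_add, intervalIntegral.integral_sub,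
      intervalIntegral.integral_const_mul]
    · simp
    · exact hq.intervalIntegrable _ _
    · exact (continuous_const.mul hf).intervalIntegrable _ _
    · exact (hq.sub (continuous_const.mul hf)).intervalIntegrable _ _
    · exact intervalIntegrable_const
  rw [h3] at h2
  nlinarith

/-- The Euler–Lagrange equation, weak form. -/
theorem weak_el (hG : ContDiff ℝ 1 G) (hsymm : ∀ p v w, G p v w = G p w v)
    (hpos : ∀ p v, ‖p‖ = 1 → 0 ≤ G p v v)
    {γ : ℝ → E3} {p q : E3} (hγ : GSeg G γ p q)
    {a b : E3} (ha : ‖a‖ = 1) (hb : ‖b‖ = 1) (hab : ⟪a, b⟫ = 0)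
    {ψ : ℝ → ℝ} (hψ : ContDiff ℝ 1 ψ) (h0 : ψ 0 = 0) (h1 : ψ 1 = 0) :
    ∫ t in (0 : ℝ)..1, (ψ t * (1 / 2 * fderiv ℝ G (γ t) (Agen a b (γ t)) (deriv γ t) (deriv γ t) +
        G (γ t) (deriv γ t) (Agen a b (deriv γ t))) +
      deriv ψ t * (G (γ t) (deriv γ t) (Agen a b (γ t)))) = 0 := by
  have hγ1 := hγ.path.c1
  have hγc : Continuous γ := hγ1.continuous
  have hγd : Continuous (deriv γ) := hγ1.continuous_deriv le_rfl
  have hψc : Continuous ψ := hψ.continuous
  have hψd : Continuous (deriv ψ) := hψ.continuous_deriv le_rfl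
  have hGc : Continuous G := hG.continuous
  have hGd : Continuous (fderiv ℝ G) := hG.continuous_fderiv one_ne_zero
  have hAc : Continuous (fun p : E3 => Agen a b p) := (Agen a b).continuous
  set R : ℝ → ℝ → E3 := fun s t => rot a b (s * ψ t) (γ t) with hR
  set V : ℝ → ℝ → E3 := fun s t =>
    rot a b (s * ψ t) (deriv γ t + (s * deriv ψ t) • Agen a b (γ t)) with hV
  set V' : ℝ → ℝ → E3 := fun s t =>
    rot a b (s * ψ t) (deriv ψ t • Agen a b (γ t) +
      ψ t • Agen a b (deriv γ t + (s * deriv ψ t) • Agen a b (γ t))) with hV'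
  have hrotc : Continuous (fun x : ℝ × ℝ => R x.1 x.2) := by
    simp only [hR]
    unfold rot
    fun_prop
  have hVc : Continuous (fun x : ℝ × ℝ => V x.1 x.2) := by
    simp only [hV]
    unfold rot
    fun_prop
  have hV'c : Continuous (fun x : ℝ × ℝ => V' x.1 x.2) := by
    simp only [hV']
    unfold rot
    fun_prop
  set F : ℝ → ℝ → ℝ := fun s t => G (R s t) (V s t) (V s t) with hF
  set F' : ℝ → ℝ → ℝ := fun s t =>
    fderiv ℝ G (R s t) (ψ t • Agen a b (R s t)) (V s t) (V s t) +
      G (R s t) (V' s t) (V s t) + G (R s t) (V s t) (V' s t) with hF'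
  have hFc : Continuous (Function.uncurry F) := by
    simp only [hF, Function.uncurry_def]
    exact ((hGc.comp hrotc).clm_apply hVc).clm_apply hVc
  have hF'c : Continuous (Function.uncurry F') := by
    simp only [hF', Function.uncurry_def]
    have h1 : Continuous (fun x : ℝ × ℝ => ψ x.2 • Agen a b (R x.1 x.2)) :=
      (hψc.comp continuous_snd).smul (hAc.comp hrotc)
    exact (((((hGd.comp hrotc).clm_apply h1).clm_apply hVc).clm_apply hVc).add
      (((hGc.comp hrotc).clm_apply hV'c).clm_apply hVc)).add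
      (((hGc.comp hrotc).clm_apply hVc).clm_apply hV'c)
  have hFd : ∀ s t, HasDerivAt (fun s => F s t) (F' s t) s := by
    intro s t
    have r1 : HasDerivAt (fun s : ℝ => s * ψ t) (ψ t) s := by
      simpa using (hasDerivAt_id s).mul_const (ψ t)
    have r2 : HasDerivAt (fun s => R s t)
        (ψ t • Agen a b (R s t)) s := by
      have := HasDerivAt.scomp (g₁ := fun s => rot a b s (γ t)) s
        (rot_hasDerivAt ha hb hab (s * ψ t) (γ t)) r1
      exact this
    have r3 : HasDerivAt (fun s => G (R s t))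
        (fderiv ℝ G (R s t) (ψ t • Agen a b (R s t))) s :=
      ((hG.differentiable one_ne_zero) (R s t)).hasFDerivAt.comp_hasDerivAt s r2
    have r5 : HasDerivAt (fun s : ℝ => deriv γ t + (s * deriv ψ t) • Agen a b (γ t))
        (deriv ψ t • Agen a b (γ t)) s := by
      have : HasDerivAt (fun s : ℝ => s * deriv ψ t) (deriv ψ t) s := by
        simpa using (hasDerivAt_id s).mul_const (deriv ψ t)
      exact (this.smul_const _).const_add _
    have r6 : HasDerivAt (fun s => V s t) (V' s t) s := rot_curve ha hb hab r1 r5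
    exact (r3.clm_apply r6).clm_apply r6 |>.congr_deriv (by
      simp only [hF']
      simp only [add_apply])
  have hE := deriv_param_integral hFc hF'c hFd
  -- the energy has a minimum at 0
  have hmin : ∀ s, (∫ t in (0 : ℝ)..1, F 0 t) ≤ ∫ t in (0 : ℝ)..1, F s t := by
    intro s
    have hder : ∀ t, HasDerivAt (fun t => R s t) (V s t) t := by
      intro t
      exact rot_curve ha hb hab
        (((hψ.differentiable one_ne_zero) t).hasDerivAt.const_mul s)
        ((hγ1.differentiable one_ne_zero) t).hasDerivAt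
    have hpath : IsPath (fun t => R s t) p q := by
      refine ⟨?_, ?_, ?_, ?_⟩
      · rw [contDiff_one_iff_deriv]
        refine ⟨fun t => (hder t).differentiableAt, ?_⟩
        have : deriv (fun t => R s t) = fun t => V s t := by
          funext t; exact (hder t).deriv
        rw [this]
        exact hVc.comp (by fun_prop : Continuous fun t => (s, t))
      · intro t ht
        have := hγ.path.mem t ht
        rw [mem_sphere_zero_iff_norm] at this ⊢
        simp only [hR]
        rw [rot_norm ha hb hab, this]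
      · simp [hR, h0, rot_zero, hγ.path.start]
      · simp [hR, h1, rot_zero, hγ.path.finish]
    have h2 := energy_ge hGc hpos hpath
    have h3 : (∫ t in (0 : ℝ)..1, G (R s t) (deriv (fun t => R s t) t)
        (deriv (fun t => R s t) t)) = ∫ t in (0 : ℝ)..1, F s t := by
      congr 1
      funext t
      rw [(hder t).deriv]
    have h4 : (∫ t in (0 : ℝ)..1, F 0 t) = grho G p q ^ 2 := by
      have : ∀ t ∈ Set.uIcc (0 : ℝ) 1, F 0 t = grho G p q ^ 2 := by
        intro t ht
        rw [Set.uIcc_of_le (by norm_num)] at ht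
        have hn : ‖γ t‖ = 1 := by
          have := hγ.path.mem t ht
          rwa [mem_sphere_zero_iff_norm] at this
        rw [← hγ.speed t ht, Real.sq_sqrt (hpos _ _ hn)]
        simp [hF, hR, hV, rot_zero]
      rw [intervalIntegral.integral_congr this]
      simp
    rw [h4, ← h3]
    exact h2
  have hloc : IsLocalMin (fun s => ∫ t in (0 : ℝ)..1, F s t) 0 :=
    Filter.Eventually.of_forall hmin
  have hzero := hloc.hasDerivAt_eq_zero hE
  have h5 : (∫ t in (0 : ℝ)..1, F' 0 t) = 2 * ∫ t in (0 : ℝ)..1,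
      (ψ t * (1 / 2 * fderiv ℝ G (γ t) (Agen a b (γ t)) (deriv γ t) (deriv γ t) +
        G (γ t) (deriv γ t) (Agen a b (deriv γ t))) +
      deriv ψ t * (G (γ t) (deriv γ t) (Agen a b (γ t)))) := by
    rw [← intervalIntegral.integral_const_mul]
    congr 1
    funext t
    have e1 : G (γ t) (deriv ψ t • Agen a b (γ t) + ψ t • Agen a b (deriv γ t)) (deriv γ t) =
        G (γ t) (deriv γ t) (deriv ψ t • Agen a b (γ t) + ψ t • Agen a b (deriv γ t)) :=
      hsymm _ _ _
    simp only [hF', hR, hV, hV', zero_mul, rot_zero, zero_smul, add_zero]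
    rw [e1]
    simp only [map_add, map_smul, smul_eq_mul, smul_apply]
    ring
  rw [h5] at hzero
  linarith

end ELx

open ELx in
/-- The Euler–Lagrange equation in integrated form (du Bois-Reymond). -/
theorem el : ELStm := by
  intro G hG hsymm hpos γ p q hγ a b ha hb hab t ht
  have hγ1 := hγ.path.c1
  have hγc : Continuous γ := hγ1.continuous
  have hγd : Continuous (deriv γ) := hγ1.continuous_deriv le_rfl
  have hGc : Continuous G := hG.continuous
  have hGd : Continuous (fderiv ℝ G) := hG.continuous_fderiv one_ne_zero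
  have hAc : Continuous (fun p : E3 => Agen a b p) := (Agen a b).continuous
  set J : ℝ → ℝ := fun t => G (γ t) (deriv γ t) (Agen a b (γ t)) with hJ
  set K : ℝ → ℝ := fun s => 1 / 2 * fderiv ℝ G (γ s) (Agen a b (γ s)) (deriv γ s) (deriv γ s) +
        G (γ s) (deriv γ s) (Agen a b (deriv γ s)) with hK
  have hJc : Continuous J :=
    ((hGc.comp hγc).clm_apply hγd).clm_apply (hAc.comp hγc)
  have hKc : Continuous K :=
    (continuous_const.mul ((((hGd.comp hγc).clm_apply (hAc.comp hγc)).clm_apply hγd).clm_apply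
      hγd)).add (((hGc.comp hγc).clm_apply hγd).clm_apply (hAc.comp hγd))
  set Q : ℝ → ℝ := fun t => ∫ s in (0 : ℝ)..t, K s with hQ
  have hQd : ∀ t, HasDerivAt Q (K t) t := fun t =>
    intervalIntegral.integral_hasDerivAt_right (hKc.intervalIntegrable _ _)
      (hKc.stronglyMeasurableAtFilter _ _) hKc.continuousAt
  have hQc : Continuous Q := continuous_iff_continuousAt.2 fun t => (hQd t).continuousAt
  set P : ℝ → ℝ := fun t => J t - Q t with hP
  have hPc : Continuous P := hJc.sub hQc
  set m : ℝ := ∫ t in (0 : ℝ)..1, P t with hm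
  set ψ : ℝ → ℝ := fun t => ∫ s in (0 : ℝ)..t, (P s - m) with hψ
  have hPm : Continuous fun s => P s - m := hPc.sub continuous_const
  have hψd : ∀ t, HasDerivAt ψ (P t - m) t := fun t =>
    intervalIntegral.integral_hasDerivAt_right (hPm.intervalIntegrable _ _)
      (hPm.stronglyMeasurableAtFilter _ _) hPm.continuousAt
  have hψ1 : ContDiff ℝ 1 ψ := by
    rw [contDiff_one_iff_deriv]
    refine ⟨fun t => (hψd t).differentiableAt, ?_⟩
    have : deriv ψ = fun t => P t - m := by funext t; exact (hψd t).deriv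
    rw [this]; exact hPm
  have hψ0 : ψ 0 = 0 := by simp [hψ]
  have hψ11 : ψ 1 = 0 := by
    simp only [hψ]
    rw [intervalIntegral.integral_sub (hPc.intervalIntegrable _ _) intervalIntegrable_const]
    simp [hm]
  have hw := weak_el hG hsymm hpos hγ ha hb hab hψ1 hψ0 hψ11
  have hψder : deriv ψ = fun t => P t - m := by funext t; exact (hψd t).deriv
  have hw' : ∫ t in (0 : ℝ)..1, (ψ t * K t + (P t - m) * J t) = 0 := by
    rw [← hw]
    congr 1
    funext t
    rw [hψder]
  have hψc : Continuous ψ := hψ1.continuous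
  have hparts : ∫ t in (0 : ℝ)..1, ψ t * K t = - ∫ t in (0 : ℝ)..1, (P t - m) * Q t := by
    have := intervalIntegral.integral_mul_deriv_eq_deriv_mul (a := 0) (b := 1)
      (u := ψ) (v := Q) (u' := fun t => P t - m) (v' := K)
      (fun t _ => hψd t) (fun t _ => hQd t) (hPm.intervalIntegrable _ _)
      (hKc.intervalIntegrable _ _)
    rw [this, hψ0, hψ11]
    ring
  have hint : ∫ t in (0 : ℝ)..1, (P t - m) ^ 2 = 0 := by
    have e1 : ∫ t in (0 : ℝ)..1, (ψ t * K t + (P t - m) * J t) =
        (∫ t in (0 : ℝ)..1, ψ t * K t) + ∫ t in (0 : ℝ)..1, (P t - m) * J t :=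
      intervalIntegral.integral_add ((hψc.mul hKc).intervalIntegrable _ _)
        ((hPm.mul hJc).intervalIntegrable _ _)
    rw [e1, hparts] at hw'
    have e2 : ∫ t in (0 : ℝ)..1, (P t - m) * P t =
        (∫ t in (0 : ℝ)..1, (P t - m) * J t) - ∫ t in (0 : ℝ)..1, (P t - m) * Q t := by
      rw [← intervalIntegral.integral_sub (f := fun t => (P t - m) * J t)
        (g := fun t => (P t - m) * Q t) ((hPm.mul hJc).intervalIntegrable _ _)
        ((hPm.mul hQc).intervalIntegrable _ _)]
      congr 1
      funext t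
      simp only [hP]
      ring
    have e3 : ∫ t in (0 : ℝ)..1, (P t - m) ^ 2 =
        (∫ t in (0 : ℝ)..1, (P t - m) * P t) - m * ∫ t in (0 : ℝ)..1, (P t - m) := by
      rw [← intervalIntegral.integral_const_mul, ← intervalIntegral.integral_sub
        (f := fun t => (P t - m) * P t) (g := fun t => m * (P t - m))
        ((hPm.mul hPc).intervalIntegrable _ _) ((continuous_const.mul hPm).intervalIntegrable _ _)]
      congr 1
      funext t
      ring
    have e4 : ∫ t in (0 : ℝ)..1, (P t - m) = 0 := hψ11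
    rw [e3, e2, e4]
    linarith
  -- P is constant on [0,1]
  have hconst : ∀ t ∈ Set.Icc (0 : ℝ) 1, P t = m := by
    intro t ht
    by_contra hne
    have hpos : 0 < ∫ t in (0 : ℝ)..1, (P t - m) ^ 2 := by
      refine intervalIntegral.integral_pos (by norm_num) ((hPm.pow 2).continuousOn)
        (fun x _ => sq_nonneg _) ⟨t, ht, ?_⟩
      have : P t - m ≠ 0 := sub_ne_zero.2 hne
      positivity
    rw [hint] at hpos
    exact lt_irrefl _ hpos
  have h1 := hconst t ht
  have h2 := hconst 0 ⟨le_rfl, by norm_num⟩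
  have h3 : Q 0 = 0 := by simp [hQ]
  have h4 : J t - Q t = J 0 - Q 0 := by
    have : P t = P 0 := by rw [h1, h2]
    simpa [hP] using this
  rw [h3] at h4
  have : J t = J 0 + Q t := by linarith
  exact this

end Pool.Agent.T6.H32.OP
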