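import Mathlib
import Pool.Agent.T6.H32.OP.Defs

/-!
MP_da270e_gt, Q2 (helper32), module KEY: the consequence of property (O) for metrics near
`e^{2 ε u} g₀`.  (The argument is that of the conformal case in `Pool.Agent.V11191.Opp.Main`.)
-/

set_option autoImplicit false
set_option maxSynthPendingDepth 3

open scoped RealInnerProductSpace Topology Interval ContDiff
open MeasureTheory
open Pool.Agent.V11191.Opp (E3 Good Fr PP uu gc exists_frame exists_tangent integral_odd rho_le_pi
  upper PP_eq)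

namespace Pool.Agent.T6.H32.OP

theorem key (hLOW : LOWStm) (hCMP : CMPStm) : KEYStm := by
  intro G M ε μ δ hC hN hO
  obtain ⟨x, hx, y, hy, hxy, -, γ₁, γ₂, h₁, h₂, hang⟩ := hO
  rw [mem_sphere_zero_iff_norm] at hx hy
  have hu := hC.good
  have hε := hC.eps
  have hμdef := hC.mu
  have hμ := hC.small
  obtain ⟨hsmall, hlow⟩ := hLOW G uu M ε μ δ hC hN x y hx hy hxy γ₁ γ₂ h₁ h₂ hang
  obtain ⟨τ, hτ, hyτ⟩ := exists_tangent y
  obtain ⟨n, hF⟩ := exists_frame hy hτ hyτ
  have hM := hu.one_le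
  have hμ0 : 0 < μ := by rw [hμdef]; positivity
  have hu' : Good uu (2 * M) := by
    refine ⟨hu.smooth, by linarith, fun p hp => ?_, fun p v hp => ?_, fun p q hp hq => ?_, hu.odd⟩
    · exact (hu.bound p hp).trans (by linarith)
    · refine (hu.dbound p v hp).trans ?_
      have := norm_nonneg v
      nlinarith
    · refine (hu.lip p q hp hq).trans ?_
      have := norm_nonneg (p - q)
      nlinarith
  have hμ' : 2 * μ = ε * (2 * M) := by rw [hμdef]; ring
  have hμk : 2 * μ ≤ 1 / 1000 := by linarith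
  have hsmall' : ‖x + y‖ ≤ 50 * (2 * μ) := by linarith
  have hcmp := hCMP G uu M ε μ δ hC hN x y hx hy
  have hrho : Pool.Agent.V11191.Opp.rho (fun p => ε * uu p) y x ≤ 4 := by
    have h1 := rho_le_pi hu hε hμdef (by linarith) hx hy
    have hπ2 := Real.pi_lt_d2
    have hπ1 := Real.pi_gt_three
    nlinarith
  have hcmp' : grho G y x ≤ Pool.Agent.V11191.Opp.rho (fun p => ε * uu p) y x + 4 * μ ^ 2 := by
    have : μ ^ 2 * Pool.Agent.V11191.Opp.rho (fun p => ε * uu p) y x ≤ μ ^ 2 * 4 :=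
      mul_le_mul_of_nonneg_left hrho (sq_nonneg _)
    linarith
  refine ⟨y, τ, n, ε⁻¹ • (x + y), hF, ?_, ?_⟩
  · rw [norm_smul, norm_inv, Real.norm_eq_abs, abs_of_pos hε]
    rw [inv_mul_le_iff₀ hε]
    refine hsmall.trans (le_of_eq ?_)
    rw [hμdef]; ring
  · intro a b hab
    set e : E3 := a • τ + b • n with he
    have hττ : ⟪τ, τ⟫ = 1 := by rw [real_inner_self_eq_norm_sq, hF.hτ]; norm_num
    have hnn : ⟪n, n⟫ = 1 := by rw [real_inner_self_eq_norm_sq, hF.hn]; norm_num
    have hnτ : ⟪n, τ⟫ = 0 := by rw [real_inner_comm]; exact hF.hτn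
    have he1 : ‖e‖ = 1 := by
      have h1 : ‖e‖ ^ 2 = 1 ^ 2 := by
        rw [← real_inner_self_eq_norm_sq, he]
        simp only [inner_add_left, inner_add_right, inner_smul_left, inner_smul_right, hττ, hnn,
          hnτ, hF.hτn, RCLike.conj_to_real]
        linarith
      exact (pow_left_inj₀ (norm_nonneg _) zero_le_one two_ne_zero).1 h1
    have hye : ⟪y, e⟫ = 0 := by
      rw [he, inner_add_right, inner_smul_right, inner_smul_right, hF.hyτ, hF.hyn]; ring
    have u1 := upper hu' hε hμ' hμk hx hy he1 hye hsmall'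
    have u2 := upper hu' hε hμ' hμk hx hy (e := -e) (by rw [norm_neg, he1])
      (by rw [inner_neg_right, hye, neg_zero]) hsmall'
    rw [integral_odd hu, inner_neg_right] at u2
    have hPP := PP_eq y e
    rw [inner_smul_left, RCLike.conj_to_real]
    set I := ∫ t in (0 : ℝ)..1, uu (gc y e (Real.pi * t)) with hI
    rw [← hPP]
    have hw : ⟪x + y, e⟫ = ε * (ε⁻¹ * ⟪x + y, e⟫) := by field_simp
    set W := ε⁻¹ * ⟪x + y, e⟫ with hW
    rw [hw] at u1 u2
    have hμ2 : 0 ≤ μ ^ 2 := sq_nonneg μ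
    have k1 : -(90000 * μ ^ 2) ≤ ε * (Real.pi * I - W) := by linarith
    have k2 : ε * (Real.pi * I - W) ≤ 90000 * μ ^ 2 := by linarith
    have k3 : 90000 * μ ^ 2 = ε * (90000 * M * μ) := by rw [hμdef]; ring
    rw [k3] at k1 k2
    rw [abs_le]
    constructor
    · have : ε * (-(90000 * M * μ)) ≤ ε * (Real.pi * I - W) := by linarith
      exact le_of_mul_le_mul_left this hε
    · exact le_of_mul_le_mul_left k2 hε

end Pool.Agent.T6.H32.OP
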