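import Mathlib
import Pool.Agent.T6.H32.OP.ANG

/-!
MP_da270e_gt, Q2 (helper32), module LOW: lower bound for the distance in the presence of two
opposite segments.  (The argument is that of the conformal case in `Pool.Agent.V11191.Opp.Lower`.)
-/

set_option autoImplicit false
set_option maxSynthPendingDepth 3

open scoped RealInnerProductSpace Topology Interval ContDiff
open MeasureTheory
open Pool.Agent.V11191.Opp (E3 Good Fr gc gc_deriv gc_norm exp_bounds exp_le_quad exists_frame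
  integral_odd rho_le_pi)

namespace Pool.Agent.T6.H32.OP

namespace LOWx

theorem seg_close {μ d : ℝ} (hμ0 : 0 < μ) (hμ : μ ≤ 1 / 2000) (hdπ : |d - Real.pi| ≤ 12 * μ)
    {γ : ℝ → E3} {y τ n : E3} (hF : Fr y τ n) {t : ℝ} (ht : t ∈ Set.Icc (0 : ℝ) 1) {A : ℝ → ℝ}
    (h1 : |⟪n, γ t⟫| ≤ 11 * μ)
    (h2 : γ t = (Real.sqrt (1 - ⟪n, γ t⟫ ^ 2) * Real.cos (A t)) • y +
          (Real.sqrt (1 - ⟪n, γ t⟫ ^ 2) * Real.sin (A t)) • τ + ⟪n, γ t⟫ • n)
    (h3 : |A t - d * t| ≤ 36 * μ) : ‖γ t - gc y τ (Real.pi * t)‖ ≤ 60 * μ := by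
  set Z := ⟪n, γ t⟫ with hZ
  set r := Real.sqrt (1 - Z ^ 2) with hr
  have hZ2 : Z ^ 2 ≤ 121 * μ ^ 2 := by rw [← sq_abs]; nlinarith [abs_nonneg Z]
  have hZ1 : 0 ≤ 1 - Z ^ 2 := by nlinarith
  have hr1 : r ≤ 1 := Real.sqrt_le_one.2 (by nlinarith [sq_nonneg Z])
  have hr2 : 1 - 121 * μ ^ 2 ≤ r := by
    have : r ^ 2 = 1 - Z ^ 2 := Real.sq_sqrt hZ1
    have : r ^ 2 ≤ r := by nlinarith [Real.sqrt_nonneg (1 - Z ^ 2)]
    linarith
  have hA : |A t - Real.pi * t| ≤ 48 * μ := by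
    have e : A t - Real.pi * t = (A t - d * t) + (d - Real.pi) * t := by ring
    rw [e]
    refine (abs_add_le _ _).trans ?_
    rw [abs_mul, abs_of_nonneg ht.1]
    have : |d - Real.pi| * t ≤ 12 * μ * 1 := by
      have := ht.2
      have := ht.1
      gcongr
    linarith
  have hgcl : ‖gc y τ (A t) - gc y τ (Real.pi * t)‖ ≤ |A t - Real.pi * t| := by
    have hd : ∀ θ, HasDerivAt (fun θ => gc y τ θ) (-(Real.sin θ) • y + Real.cos θ • τ) θ := by
      intro θ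
      have := gc_deriv y τ (hasDerivAt_id θ)
      simpa using this
    have hb : ∀ θ, ‖-(Real.sin θ) • y + Real.cos θ • τ‖ ≤ 1 := by
      intro θ
      have h4 := gc_norm hF.hy hF.hτ hF.hyτ (θ + Real.pi / 2)
      rw [gc, Real.cos_add_pi_div_two, Real.sin_add_pi_div_two] at h4
      exact h4.le
    have := Convex.norm_image_sub_le_of_norm_hasDerivWithin_le (s := Set.univ)
      (f := fun θ => gc y τ θ) (C := 1) (x := Real.pi * t) (y := A t)
      (fun θ _ => (hd θ).hasDerivWithinAt) (fun θ _ => hb θ) convex_univ trivial trivial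
    simpa [Real.norm_eq_abs] using this
  have e1 : γ t - gc y τ (Real.pi * t) = (r - 1) • gc y τ (A t) + Z • n +
      (gc y τ (A t) - gc y τ (Real.pi * t)) := by
    have : γ t = r • gc y τ (A t) + Z • n := by
      rw [gc, smul_add, smul_smul, smul_smul]
      exact h2
    rw [this]
    module
  rw [e1]
  have g1 : ‖gc y τ (A t)‖ = 1 := gc_norm hF.hy hF.hτ hF.hyτ _
  calc ‖(r - 1) • gc y τ (A t) + Z • n + (gc y τ (A t) - gc y τ (Real.pi * t))‖
      ≤ ‖(r - 1) • gc y τ (A t)‖ + ‖Z • n‖ + ‖gc y τ (A t) - gc y τ (Real.pi * t)‖ :=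
        norm_add₃_le
    _ = |r - 1| + |Z| + ‖gc y τ (A t) - gc y τ (Real.pi * t)‖ := by
        rw [norm_smul, norm_smul, g1, hF.hn, mul_one, mul_one, Real.norm_eq_abs,
          Real.norm_eq_abs]
    _ ≤ 121 * μ ^ 2 + 11 * μ + 48 * μ := by
        have : |r - 1| ≤ 121 * μ ^ 2 := by rw [abs_le]; constructor <;> nlinarith
        linarith
    _ ≤ 60 * μ := by nlinarith

end LOWx

open LOWx in
theorem low (hMOM : MOMStm) (hSEG : SEGStm) (hCMP : CMPStm) (hANG : ANGStm) : LOWStm := by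
  intro G u M ε μ δ hC hN x y hx hy hxy γ₁ γ₂ h₁ h₂ hang
  have hu := hC.good
  have hε := hC.eps
  have hμdef := hC.mu
  have hμ := hC.small
  have hM := hu.one_le
  have hμ0 : 0 < μ := by rw [hμdef]; positivity
  have hμk : μ ≤ 1 / 1000 := by linarith
  have hπ1 := Real.pi_gt_three
  have hπ2 := Real.pi_lt_d2
  set d := grho G y x with hd
  have h0mem : (0 : ℝ) ∈ Set.Icc (0 : ℝ) 1 := ⟨le_rfl, by norm_num⟩
  have h1mem : (1 : ℝ) ∈ Set.Icc (0 : ℝ) 1 := ⟨by norm_num, le_rfl⟩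
  have s1 := h₁.speed 0 h0mem
  have s2 := h₂.speed 0 h0mem
  rw [h₁.path.start, ← hd] at s1
  rw [h₂.path.start, ← hd] at s2
  obtain ⟨hne, hdir⟩ := hANG G u M ε μ δ hC hN y _ _ hy hang (s1.trans s2.symm)
  have hd0 : 0 < d := by
    rw [← s1]
    apply Real.sqrt_pos.2
    have h5 : 1 / 2 * ‖deriv γ₁ 0‖ ^ 2 ≤ G y (deriv γ₁ 0) (deriv γ₁ 0) := Near.pos hC hN hy
    have : 0 < ‖deriv γ₁ 0‖ := norm_pos_iff.2 hne
    have : 0 < 1 / 2 * ‖deriv γ₁ 0‖ ^ 2 := by positivity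
    linarith
  have hdle : d ≤ Real.pi * (1 + 3 * μ) := by
    have h5 := hCMP G u M ε μ δ hC hN x y hx hy
    have h6 := rho_le_pi hu hε hμdef hμk hx hy
    have h7 : (1 + μ ^ 2) * (Real.pi * (1 + 2 * μ)) ≤ Real.pi * (1 + 3 * μ) := by
      have e : Real.pi * (1 + 3 * μ) - (1 + μ ^ 2) * (Real.pi * (1 + 2 * μ)) =
        Real.pi * (μ * (1 - μ - 2 * μ ^ 2)) := by ring
      have : 0 ≤ Real.pi * (μ * (1 - μ - 2 * μ ^ 2)) := by
        have : 0 ≤ 1 - μ - 2 * μ ^ 2 := by nlinarith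
        positivity
      linarith
    have h8 : (1 + μ ^ 2) * Pool.Agent.V11191.Opp.rho (fun p => ε * u p) y x ≤
        (1 + μ ^ 2) * (Real.pi * (1 + 2 * μ)) :=
      mul_le_mul_of_nonneg_left h6 (by positivity)
    exact h5.trans (h8.trans h7)
  have hd4 : d ≤ 4 := by nlinarith
  set v := ‖deriv γ₁ 0‖ with hv
  have hvpos : 0 < v := norm_pos_iff.2 hne
  set τ : E3 := v⁻¹ • deriv γ₁ 0 with hτ
  have hdir1 : deriv γ₁ 0 = v • τ := by
    rw [hτ, smul_smul, mul_inv_cancel₀ hvpos.ne', one_smul]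
  have hτ1 : ‖τ‖ = 1 := by
    rw [hτ, norm_smul, norm_inv, Real.norm_eq_abs, abs_of_pos hvpos, ← hv,
      inv_mul_cancel₀ hvpos.ne']
  have hdir2 : deriv γ₂ 0 = v • (-τ) := by
    rw [hdir, hdir1]; module
  -- τ is tangent
  have hyτ : ⟪y, τ⟫ = 0 := by
    have hγD : HasDerivAt γ₁ (deriv γ₁ 0) 0 :=
      ((h₁.path.c1.differentiable one_ne_zero) 0).hasDerivAt
    have hns : HasDerivAt (fun t => ‖γ₁ t‖ ^ 2) (2 * ⟪γ₁ 0, deriv γ₁ 0⟫) 0 := hγD.norm_sq
    have hw : HasDerivWithinAt (fun t => ‖γ₁ t‖ ^ 2) (2 * ⟪γ₁ 0, deriv γ₁ 0⟫)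
        (Set.Icc 0 1) 0 := hns.hasDerivWithinAt
    have hw2 : HasDerivWithinAt (fun _ : ℝ => (1 : ℝ)) (2 * ⟪γ₁ 0, deriv γ₁ 0⟫)
        (Set.Icc 0 1) 0 := by
      refine hw.congr ?_ ?_
      · intro t ht
        have := h₁.path.mem t ht
        rw [mem_sphere_zero_iff_norm] at this
        rw [this]; norm_num
      · have := h₁.path.mem 0 h0mem
        rw [mem_sphere_zero_iff_norm] at this
        rw [this]; norm_num
    have huniq : UniqueDiffWithinAt ℝ (Set.Icc (0 : ℝ) 1) 0 :=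
      (uniqueDiffOn_Icc (by norm_num)) 0 h0mem
    have h5 := huniq.eq_deriv _ hw2 (hasDerivWithinAt_const 0 _ (1 : ℝ))
    rw [h₁.path.start, hdir1, inner_smul_right] at h5
    have h6 : v * ⟪y, τ⟫ = 0 := by linarith
    exact (mul_eq_zero.1 h6).resolve_left hvpos.ne'
  obtain ⟨n, hF⟩ := exists_frame hy hτ1 hyτ
  have hF2 : Fr y (-τ) n := ⟨hy, by rw [norm_neg, hτ1], hF.hn,
    by rw [inner_neg_right, hyτ, neg_zero], hF.hyn, by rw [inner_neg_left, hF.hτn, neg_zero]⟩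
  have hn1 : ∀ t ∈ Set.Icc (0 : ℝ) 1, ‖γ₁ t‖ = 1 := fun t ht => by
    have := h₁.path.mem t ht
    rwa [mem_sphere_zero_iff_norm] at this
  have hn2 : ∀ t ∈ Set.Icc (0 : ℝ) 1, ‖γ₂ t‖ = 1 := fun t ht => by
    have := h₂.path.mem t ht
    rwa [mem_sphere_zero_iff_norm] at this
  obtain ⟨m1, m1'⟩ := hMOM G u M ε μ δ d hC hN hd0 hd4 γ₁ y x h₁ hd.symm
  obtain ⟨m2, m2'⟩ := hMOM G u M ε μ δ d hC hN hd0 hd4 γ₂ y x h₂ hd.symm
  obtain ⟨A₁, hA1, hA1p, hA1i⟩ := hSEG u M ε μ d hu hε hμdef hμ hd0 hd4 γ₁ y τ n hF h₁.path.c1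
    hn1 h₁.path.start v hvpos hdir1 m1 m1'
  obtain ⟨A₂, hA2, hA2p, hA2i⟩ := hSEG u M ε μ d hu hε hμdef hμ hd0 hd4 γ₂ y (-τ) n hF2
    h₂.path.c1 hn2 h₂.path.start v hvpos hdir2 m2 m2'
  -- end points
  have e1 := (hA1 1 h1mem).2.1
  have e2 := (hA2 1 h1mem).2.1
  rw [h₁.path.finish] at e1
  rw [h₂.path.finish] at e2
  set Z := ⟪n, x⟫ with hZ
  set ρ := Real.sqrt (1 - Z ^ 2) with hρ
  have hZb : |Z| ≤ 11 * μ := by
    have := (hA1 1 h1mem).1
    rwa [h₁.path.finish] at this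
  have hρpos : 0 < ρ := by
    apply Real.sqrt_pos.2
    have : Z ^ 2 ≤ 121 * μ ^ 2 := by rw [← sq_abs]; nlinarith [abs_nonneg Z]
    nlinarith
  have hyy : ⟪y, y⟫ = 1 := by rw [real_inner_self_eq_norm_sq, hy]; norm_num
  have hττ : ⟪τ, τ⟫ = 1 := by rw [real_inner_self_eq_norm_sq, hτ1]; norm_num
  have hτy : ⟪τ, y⟫ = 0 := by rw [real_inner_comm]; exact hyτ
  have hcosE : ρ * Real.cos (A₁ 1) = ρ * Real.cos (A₂ 1) := by
    have a1 := congrArg (fun q => ⟪y, q⟫) e1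
    have a2 := congrArg (fun q => ⟪y, q⟫) e2
    simp only [inner_add_right, inner_smul_right, inner_neg_right, hyy, hyτ, hF.hyn] at a1 a2
    linarith
  have hsinE : ρ * Real.sin (A₁ 1) = -(ρ * Real.sin (A₂ 1)) := by
    have a1 := congrArg (fun q => ⟪τ, q⟫) e1
    have a2 := congrArg (fun q => ⟪τ, q⟫) e2
    simp only [inner_add_right, inner_smul_right, inner_neg_right, hττ, hτy, hF.hτn] at a1 a2
    linarith
  have hcosE' : Real.cos (A₁ 1) = Real.cos (A₂ 1) := mul_left_cancel₀ hρpos.ne' hcosE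
  have hsinE' : Real.sin (A₁ 1) = -Real.sin (A₂ 1) := by
    have : ρ * Real.sin (A₁ 1) = ρ * (-Real.sin (A₂ 1)) := by rw [hsinE]; ring
    exact mul_left_cancel₀ hρpos.ne' this
  have hcos1 : Real.cos (A₁ 1 + A₂ 1) = 1 := by
    rw [Real.cos_add, hcosE', hsinE']
    have := Real.sin_sq_add_cos_sq (A₂ 1)
    linarith
  have h2π : 2 * Real.pi ≤ A₁ 1 + A₂ 1 := by
    obtain ⟨k, hk⟩ := (Real.cos_eq_one_iff _).1 hcos1
    have hkpos : 0 < (k : ℝ) * (2 * Real.pi) := by rw [hk]; linarith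
    have hk0 : (0 : ℝ) < k := by
      by_contra hcon
      push Not at hcon
      have : (k : ℝ) * (2 * Real.pi) ≤ 0 :=
        mul_nonpos_of_nonpos_of_nonneg hcon (by positivity)
      linarith
    have hk1 : (1 : ℝ) ≤ k := by
      have : (0 : ℤ) < k := by exact_mod_cast hk0
      exact_mod_cast this
    rw [← hk]
    nlinarith
  -- crude lower bound on d
  have hb1 := (abs_le.1 (hA1 1 h1mem).2.2).2
  have hb2 := (abs_le.1 (hA2 1 h1mem).2.2).2
  rw [mul_one] at hb1 hb2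
  -- |d - π| ≤ 12 μ  needs a relative estimate
  have hup : ∀ (γ : ℝ → E3), (∀ t ∈ Set.Icc (0 : ℝ) 1, ‖γ t‖ = 1) → Continuous γ →
      (∫ t in (0 : ℝ)..1, Real.exp (-(ε * u (γ t)))) ≤ 1 + 2 * μ := by
    intro γ hγn hγc
    have huc : Continuous u := hu.smooth.continuous
    have hm : (∫ t in (0 : ℝ)..1, Real.exp (-(ε * u (γ t)))) ≤
        ∫ t in (0 : ℝ)..1, (1 + 2 * μ) := by
      refine intervalIntegral.integral_mono_on (by norm_num) ?_ intervalIntegrable_const ?_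
      · exact (Real.continuous_exp.comp (continuous_const.mul
          (huc.comp hγc)).neg).intervalIntegrable _ _
      · intro t ht
        refine (exp_bounds hμk ?_).2
        rw [abs_neg, abs_mul, abs_of_pos hε, hμdef]
        exact mul_le_mul_of_nonneg_left (hu.bound _ (hγn t ht)) hε.le
    simpa using hm
  have hu1 := hup γ₁ hn1 h₁.path.c1.continuous
  have hu2 := hup γ₂ hn2 h₂.path.c1.continuous
  have hkey1 : 2 * Real.pi * (1 - 124 * μ ^ 2) ≤
      d * ((∫ t in (0 : ℝ)..1, Real.exp (-(ε * u (γ₁ t)))) +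
        ∫ t in (0 : ℝ)..1, Real.exp (-(ε * u (γ₂ t)))) := by
    have : 0 ≤ 1 - 124 * μ ^ 2 := by nlinarith
    nlinarith
  have hdπ : |d - Real.pi| ≤ 12 * μ := by
    have h5 : 2 * Real.pi * (1 - 124 * μ ^ 2) ≤ d * (2 * (1 + 2 * μ)) := by
      refine hkey1.trans ?_
      apply mul_le_mul_of_nonneg_left _ hd0.le
      linarith
    rw [abs_le]
    constructor
    · have hμ2 : μ ^ 2 ≤ μ / 2000 := by nlinarith
      have k1 : Real.pi * (1 - 124 * μ ^ 2) ≤ d * (1 + 2 * μ) := by linarith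
      have k2 : d * μ ≤ 4 * μ := mul_le_mul_of_nonneg_right hd4 hμ0.le
      have k3 : Real.pi * μ ^ 2 ≤ 4 * μ ^ 2 :=
        mul_le_mul_of_nonneg_right (by linarith) (sq_nonneg μ)
      linarith
    · have k4 : Real.pi * μ ≤ 4 * μ := mul_le_mul_of_nonneg_right (by linarith) hμ0.le
      linarith
  have hc1 : ∀ t ∈ Set.Icc (0 : ℝ) 1, ‖γ₁ t - gc y τ (Real.pi * t)‖ ≤ 60 * μ := fun t ht =>
    seg_close hμ0 hμ hdπ hF ht (hA1 t ht).1 (hA1 t ht).2.1 (hA1 t ht).2.2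
  have hc2 : ∀ t ∈ Set.Icc (0 : ℝ) 1, ‖γ₂ t - gc y (-τ) (Real.pi * t)‖ ≤ 60 * μ := fun t ht =>
    seg_close hμ0 hμ hdπ hF2 ht (hA2 t ht).1 (hA2 t ht).2.1 (hA2 t ht).2.2
  refine ⟨?_, ?_⟩
  · have := hc1 1 h1mem
    rw [h₁.path.finish, mul_one] at this
    have h6 : gc y τ Real.pi = -y := by simp [gc]
    rw [h6, sub_neg_eq_add] at this
    exact this
  · -- second order estimate
    have huc : Continuous u := hu.smooth.continuous
    have hquad : ∀ (γ : ℝ → E3) (e : E3), ‖e‖ = 1 → ⟪y, e⟫ = 0 →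
        (∀ t ∈ Set.Icc (0 : ℝ) 1, ‖γ t‖ = 1) → Continuous γ →
        (∀ t ∈ Set.Icc (0 : ℝ) 1, ‖γ t - gc y e (Real.pi * t)‖ ≤ 60 * μ) →
        (∫ t in (0 : ℝ)..1, Real.exp (-(ε * u (γ t)))) ≤
          1 - ε * (∫ t in (0 : ℝ)..1, u (gc y e (Real.pi * t))) + 61 * μ ^ 2 := by
      intro γ e he hye hγn hγc hcl
      have hgcc : Continuous (fun t : ℝ => gc y e (Real.pi * t)) := by unfold gc; fun_prop
      have hI : IntervalIntegrable (fun t => u (gc y e (Real.pi * t))) volume 0 1 :=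
        (huc.comp hgcc).intervalIntegrable _ _
      have hm : (∫ t in (0 : ℝ)..1, Real.exp (-(ε * u (γ t)))) ≤
          ∫ t in (0 : ℝ)..1, (1 - ε * u (gc y e (Real.pi * t)) + 61 * μ ^ 2) := by
        refine intervalIntegral.integral_mono_on (by norm_num) ?_ ?_ ?_
        · exact (Real.continuous_exp.comp (continuous_const.mul
            (huc.comp hγc)).neg).intervalIntegrable _ _
        · exact ((continuous_const.sub (continuous_const.mul (huc.comp hgcc))).add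
            continuous_const).intervalIntegrable _ _
        · intro t ht
          have h5 : |-(ε * u (γ t))| ≤ μ := by
            rw [abs_neg, abs_mul, abs_of_pos hε, hμdef]
            exact mul_le_mul_of_nonneg_left (hu.bound _ (hγn t ht)) hε.le
          have h6 := exp_le_quad (h5.trans (by linarith))
          have h7 : (-(ε * u (γ t))) ^ 2 ≤ μ ^ 2 := by
            rw [← sq_abs]; exact pow_le_pow_left₀ (abs_nonneg _) h5 2
          have h8 := hu.lip (γ t) (gc y e (Real.pi * t)) (hγn t ht) (gc_norm hy he hye _)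
          have h9 := (abs_le.1 h8).1
          have h10 := hcl t ht
          have h11 : M * ‖γ t - gc y e (Real.pi * t)‖ ≤ M * (60 * μ) := by gcongr
          have h12 : ε * (M * (60 * μ)) = 60 * μ ^ 2 := by rw [hμdef]; ring
          have h13 : ε * (u (gc y e (Real.pi * t)) - u (γ t)) ≤ ε * (M * (60 * μ)) := by
            apply mul_le_mul_of_nonneg_left _ hε.le
            linarith
          linarith
      refine hm.trans (le_of_eq ?_)
      rw [intervalIntegral.integral_add, intervalIntegral.integral_sub,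
        intervalIntegral.integral_const_mul]
      · simp
      · exact intervalIntegrable_const
      · exact hI.const_mul _
      · exact intervalIntegrable_const.sub (hI.const_mul _)
      · exact intervalIntegrable_const
    have q1 := hquad γ₁ τ hτ1 hyτ hn1 h₁.path.c1.continuous hc1
    have q2 := hquad γ₂ (-τ) hF2.hτ hF2.hyτ hn2 h₂.path.c1.continuous hc2
    rw [integral_odd hu] at q2
    have h5 : 2 * Real.pi * (1 - 124 * μ ^ 2) ≤ d * (2 + 122 * μ ^ 2) := by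
      refine hkey1.trans ?_
      apply mul_le_mul_of_nonneg_left _ hd0.le
      linarith
    have k1 : Real.pi * (1 - 124 * μ ^ 2) ≤ d * (1 + 61 * μ ^ 2) := by linarith
    have k2 : d * μ ^ 2 ≤ 4 * μ ^ 2 := mul_le_mul_of_nonneg_right hd4 (sq_nonneg μ)
    have k3 : Real.pi * μ ^ 2 ≤ 4 * μ ^ 2 :=
      mul_le_mul_of_nonneg_right (by linarith) (sq_nonneg μ)
    have hμ2 : 0 ≤ μ ^ 2 := sq_nonneg μ
    linarith

end Pool.Agent.T6.H32.OP
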