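import Mathlib
import Pool.Agent.T6.H32.OP.Defs

/-!
MP_da270e_gt, Q2 (helper32): assembly.
-/

set_option autoImplicit false
set_option maxSynthPendingDepth 3

open scoped RealInnerProductSpace Topology Interval ContDiff
open MeasureTheory
open Pool.Agent.V11191.Opp (E3 Good Fr PP uu uu_smooth uu_odd exists_good)

namespace Pool.Agent.T6.H32.OP

/-- Metrics near `e^{2 ε u} g₀` do not have property (O). -/
theorem main (hKEY : KEYStm) (hUNI : UNIStm) : MAINStm := by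
  obtain ⟨M, hM⟩ := exists_good (u := uu) (uu_smooth.of_le (by exact_mod_cast le_top)) uu_odd
  have hM1 := hM.one_le
  have hM0 : 0 < M := by linarith
  obtain ⟨c₀, hc₀, hUNI'⟩ := hUNI (60 * M)
  set μ : ℝ := min (1 / 2000) (c₀ / (180000 * M)) with hμ
  have hμ0 : 0 < μ := lt_min (by norm_num) (by positivity)
  have hμ1 : μ ≤ 1 / 2000 := min_le_left _ _
  have hμ2 : 90000 * M * μ < c₀ := by
    have h1 : μ ≤ c₀ / (180000 * M) := min_le_right _ _
    have h2 : μ * (180000 * M) ≤ c₀ := (le_div_iff₀ (by positivity)).1 h1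
    have h3 : 90000 * M * μ = (μ * (180000 * M)) / 2 := by ring
    rw [h3]
    linarith
  refine ⟨μ / M, μ ^ 2, by positivity, by positivity, fun G hN hO => ?_⟩
  have hC : Cst uu M (μ / M) μ (μ ^ 2) :=
    ⟨hM, by positivity, (div_mul_cancel₀ _ hM0.ne').symm, hμ1, by positivity, le_rfl⟩
  obtain ⟨y, τ, n, w, hF, hw, hb⟩ := hKEY G M (μ / M) μ (μ ^ 2) hC hN hO
  obtain ⟨a, b, hab, hc⟩ := hUNI' y τ n w hF hw
  have := hb a b hab
  linarith

/-- The metrics with property (O) are not dense. -/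
theorem fin (hMAIN : MAINStm) (hPRS : PRSStm) (hMDL : MDLStm) (hCUT : CUTStm) (hTOP : TOPStm) :
    ¬ Dense {G : SMetric | PropO G.g} := by
  obtain ⟨ε, δ, hε, hδ, hno⟩ := hMAIN
  obtain ⟨G₀, hG₀⟩ := hMDL ε
  obtain ⟨η, hη, hcut⟩ := hCUT ε δ hδ
  refine hTOP _ G₀ η hη fun G h0 h1 hG => ?_
  rw [hG₀] at h0 h1
  obtain ⟨G', hN, hag⟩ := hcut G h0 h1
  exact hno G' hN (hPRS G.g G' hag hG)

end Pool.Agent.T6.H32.OP
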