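import Pool.Agent.T6.H32.OP.Defs

/-!
Project OP (helper32), module MDL: the model metric is a smooth Riemannian metric on the sphere.
-/

set_option autoImplicit false
set_option maxSynthPendingDepth 3

open scoped RealInnerProductSpace Topology Interval ContDiff
open MeasureTheory
open Pool.Agent.V11191.Opp (E3 uu uu_smooth)

namespace Pool.Agent.T6.H32.OP

namespace MDLx

theorem innerSL_eq (p : E3) : innerSL ℝ p = IB p := by
  ext w
  rw [IB_apply]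
  simp

theorem r1_smooth : ContDiff ℝ ∞ (fun p : E3 => ((innerSL ℝ p).smulRight (innerSL ℝ p) : Bil)) := by
  have h : (fun p : E3 => ((innerSL ℝ p).smulRight (innerSL ℝ p) : Bil)) =
      fun p : E3 => ((IB p).smulRight (IB p) : Bil) := by
    funext p
    rw [innerSL_eq]
  rw [h]
  exact IB.contDiff.smulRight IB.contDiff

theorem mdl_apply {ε : ℝ} {p : E3} (hp : p ≠ 0) (v w : E3) :
    mdl ε p v w = Real.exp (2 * (ε * uu (‖p‖⁻¹ • p))) *
      (⟪v, w⟫ - (‖p‖ ^ 2)⁻¹ * (⟪p, v⟫ * ⟪p, w⟫)) := by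
  unfold mdl
  rw [if_neg hp]
  simp only [ContinuousLinearMap.smul_apply, ContinuousLinearMap.sub_apply,
    ContinuousLinearMap.smulRight_apply, IB_apply, innerSL_apply_apply, smul_eq_mul]

theorem mdl_smooth (ε : ℝ) : ContDiffOn ℝ ∞ (mdl ε) {0}ᶜ := by
  have hn : ContDiffOn ℝ ∞ (fun p : E3 => ‖p‖) {0}ᶜ := contDiffOn_id.norm ℝ (fun x hx => hx)
  have hne : ∀ p ∈ ({0}ᶜ : Set E3), ‖p‖ ≠ 0 := fun p hp => norm_ne_zero_iff.2 hp
  have h1 : ContDiffOn ℝ ∞ (fun p : E3 => ‖p‖⁻¹ • p) {0}ᶜ := (hn.inv hne).smul contDiffOn_id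
  have h2 : ContDiffOn ℝ ∞ (fun p : E3 => uu (‖p‖⁻¹ • p)) {0}ᶜ := uu_smooth.comp_contDiffOn h1
  have h3 : ContDiffOn ℝ ∞ (fun p : E3 => Real.exp (2 * (ε * uu (‖p‖⁻¹ • p)))) {0}ᶜ :=
    (contDiffOn_const.mul (contDiffOn_const.mul h2)).exp
  have h5 : ContDiffOn ℝ ∞ (fun p : E3 => (‖p‖ ^ 2)⁻¹) {0}ᶜ :=
    (hn.pow 2).inv (fun p hp => pow_ne_zero 2 (hne p hp))
  have h6 : ContDiffOn ℝ ∞ (fun p : E3 => Real.exp (2 * (ε * uu (‖p‖⁻¹ • p))) •
      (IB - (‖p‖ ^ 2)⁻¹ • ((innerSL ℝ p).smulRight (innerSL ℝ p) : Bil))) {0}ᶜ :=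
    h3.smul (contDiffOn_const.sub (h5.smul r1_smooth.contDiffOn))
  refine h6.congr ?_
  intro p hp
  have hp' : p ≠ 0 := hp
  simp only [mdl, if_neg hp']

end MDLx

open MDLx in
/-- **MDL** -/
theorem mdl_metric : MDLStm := by
  intro ε
  refine ⟨⟨mdl ε, mdl_smooth ε, ?_, ?_, ?_, ?_, ?_⟩, rfl⟩
  · intro r p hr
    by_cases hp : p = 0
    · rw [hp, smul_zero]
    · have hrp : r • p ≠ 0 := smul_ne_zero hr.ne' hp
      have hnp : ‖p‖ ≠ 0 := norm_ne_zero_iff.2 hp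
      ext v w
      rw [mdl_apply hrp, mdl_apply hp]
      have h1 : ‖r • p‖⁻¹ • r • p = ‖p‖⁻¹ • p := by
        rw [norm_smul, Real.norm_of_nonneg hr.le, smul_smul]
        congr 1
        field_simp
      rw [h1, norm_smul, Real.norm_of_nonneg hr.le, real_inner_smul_left, real_inner_smul_left]
      congr 2
      field_simp
  · intro p v
    by_cases hp : p = 0
    · rw [hp]
      simp
    · have hnp : ‖p‖ ≠ 0 := norm_ne_zero_iff.2 hp
      rw [mdl_apply hp, real_inner_self_eq_norm_sq]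
      have : (‖p‖ ^ 2)⁻¹ * (‖p‖ ^ 2 * ⟪p, v⟫) = ⟪p, v⟫ := by field_simp
      rw [this, sub_self, mul_zero]
  · intro p v w
    by_cases hp : p = 0
    · rw [hp]
      simp [mdl]
    · rw [mdl_apply hp, mdl_apply hp, real_inner_comm v w]
      ring
  · intro p v hp hpv hv
    have hp0 : p ≠ 0 := by
      rintro rfl
      simp at hp
    rw [mdl_apply hp0, hpv, real_inner_self_eq_norm_sq]
    have : 0 < ‖v‖ := norm_pos_iff.2 hv
    have h2 := Real.exp_pos (2 * (ε * uu (‖p‖⁻¹ • p)))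
    rw [zero_mul, mul_zero, sub_zero]
    positivity
  · simp [mdl]

end Pool.Agent.T6.H32.OP
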