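import Pool.Agent.T6.H32.OP.Defs

/-!
# Project OP, module MOM: speed and momenta of a segment
-/

set_option autoImplicit false
set_option maxSynthPendingDepth 3

open scoped RealInnerProductSpace Topology Interval ContDiff
open MeasureTheory
open Pool.Agent.V11191.Opp (E3 IsPath Good Fr gc PP uu Agen)

namespace Pool.Agent.T6.H32.OP

namespace MOMx

theorem mu_pos {u : E3 → ℝ} {M ε μ δ : ℝ} (hC : Cst u M ε μ δ) : 0 < μ := by
  rw [hC.mu]
  exact mul_pos hC.eps (lt_of_lt_of_le one_pos hC.good.one_le)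

theorem ub {u : E3 → ℝ} {M ε μ δ : ℝ} (hC : Cst u M ε μ δ) {p : E3} (hp : ‖p‖ = 1) :
    |ε * u p| ≤ μ := by
  rw [abs_mul, abs_of_pos hC.eps, hC.mu]
  exact mul_le_mul_of_nonneg_left (hC.good.bound _ hp) hC.eps.le

theorem G_nonneg {G : E3 → Bil} {u : E3 → ℝ} {M ε μ δ : ℝ} (hC : Cst u M ε μ δ)
    (hN : Near G u ε δ) (p v : E3) (hp : ‖p‖ = 1) : 0 ≤ G p v v := by
  have h1 := (abs_le.1 (hN.h0 p v v hp)).1
  rw [real_inner_self_eq_norm_sq] at h1
  have h2 := Real.add_one_le_exp (2 * (ε * u p))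
  have h3 := (abs_le.1 (ub hC hp)).1
  have h4 := hC.small
  have h5 := hC.del
  have hμ0 := mu_pos hC
  have h6 : δ ≤ 1 / 2 := by nlinarith
  have h7 : 1 / 2 ≤ Real.exp (2 * (ε * u p)) := by linarith
  have h8 : 0 ≤ ‖v‖ ^ 2 := sq_nonneg _
  have h9 : 0 ≤ (Real.exp (2 * (ε * u p)) - δ) * ‖v‖ ^ 2 :=
    mul_nonneg (by linarith) h8
  nlinarith

theorem speed_aux {E N d δ μ : ℝ} (hμ0 : 0 < μ) (hμ : μ ≤ 1 / 2000) (hδ0 : 0 ≤ δ)
    (hδ : δ ≤ μ ^ 2) (hd : 0 < d) (hN : 0 ≤ N) (hE1 : 1 - μ ≤ E)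
    (h : |d ^ 2 - E ^ 2 * N ^ 2| ≤ δ * N ^ 2) :
    |E * N - d| ≤ 2 * μ ^ 2 * d ∧ E * N ≤ 1001 / 1000 * d ∧ N ≤ 101 / 100 * d := by
  have hE0 : 999 / 1000 ≤ E := by linarith
  have hq0 : 0 ≤ E * N := mul_nonneg (by linarith) hN
  have hδ1 : δ ≤ 1 / 1000000 := by nlinarith
  have hNq : N ≤ 1002 / 1000 * (E * N) := by nlinarith
  set q := E * N with hq
  have hNq2 : N ^ 2 ≤ 101 / 100 * q ^ 2 := by nlinarith
  have h1 : |q - d| * (q + d) ≤ 101 / 100 * δ * q ^ 2 := by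
    have e1 : |q - d| * (q + d) = |d ^ 2 - E ^ 2 * N ^ 2| := by
      have : d ^ 2 - E ^ 2 * N ^ 2 = -((q - d) * (q + d)) := by rw [hq]; ring
      rw [this, abs_neg, abs_mul, abs_of_nonneg (by linarith : 0 ≤ q + d)]
    rw [e1]
    refine h.trans ?_
    nlinarith
  have h2 : |q - d| ≤ 101 / 100 * δ * q := by
    have hqd : 0 < q + d := by linarith
    have h3 : |q - d| * (q + d) ≤ (101 / 100 * δ * q) * (q + d) := by
      refine h1.trans ?_
      have : 0 ≤ 101 / 100 * δ * q * d := by positivity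
      nlinarith
    exact le_of_mul_le_mul_right h3 hqd
  have h4 : q ≤ 1001 / 1000 * d := by
    have h5 := (abs_le.1 h2).2
    have h6 : 101 / 100 * δ * q ≤ 101 / 100 * (1 / 1000000) * q := by
      have := mul_le_mul_of_nonneg_right hδ1 hq0
      linarith
    linarith
  refine ⟨?_, h4, by linarith⟩
  refine h2.trans ?_
  have h7 : δ * q ≤ μ ^ 2 * (1001 / 1000 * d) :=
    mul_le_mul hδ h4 hq0 (by positivity)
  have h8 : 0 ≤ μ ^ 2 * d := by positivity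
  linarith

theorem inner_Agen_self (a b p : E3) : ⟪p, Agen a b p⟫ = 0 := by
  rw [Pool.Agent.V11191.Opp.Agen_apply, inner_sub_right, inner_smul_right, inner_smul_right,
    real_inner_comm a p, real_inner_comm b p]
  ring

end MOMx

open MOMx

theorem mom (hEL : ELStm) : MOMStm := by
  intro G u M ε μ δ d hC hN hd0 hd4 γ p q hγ hd
  have hμ0 := mu_pos hC
  have hμ := hC.small
  have hδ0 := hC.del0
  have hδ := hC.del
  have hM := hC.good.one_le
  have hε := hC.eps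
  have hnorm : ∀ t ∈ Set.Icc (0 : ℝ) 1, ‖γ t‖ = 1 := fun t ht => by
    have := hγ.path.mem t ht
    rwa [mem_sphere_zero_iff_norm] at this
  have hsp : ∀ t ∈ Set.Icc (0 : ℝ) 1, G (γ t) (deriv γ t) (deriv γ t) = d ^ 2 := by
    intro t ht
    have h1 := hγ.speed t ht
    rw [hd] at h1
    rw [← h1, Real.sq_sqrt (G_nonneg hC hN _ _ (hnorm t ht))]
  have hE : ∀ t ∈ Set.Icc (0 : ℝ) 1, 1 - μ ≤ Real.exp (ε * u (γ t)) := by
    intro t ht
    exact (Pool.Agent.V11191.Opp.exp_bounds (by linarith) (ub hC (hnorm t ht))).1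
  have e1 : ∀ t, Real.exp (2 * (ε * u (γ t))) = Real.exp (ε * u (γ t)) ^ 2 := by
    intro t
    rw [← Real.exp_nat_mul]; norm_num
  have hall : ∀ t ∈ Set.Icc (0 : ℝ) 1,
      |Real.exp (ε * u (γ t)) * ‖deriv γ t‖ - d| ≤ 2 * μ ^ 2 * d ∧
      Real.exp (ε * u (γ t)) * ‖deriv γ t‖ ≤ 1001 / 1000 * d ∧ ‖deriv γ t‖ ≤ 101 / 100 * d := by
    intro t ht
    have h1 := hN.h0 (γ t) (deriv γ t) (deriv γ t) (hnorm t ht)
    rw [hsp t ht, real_inner_self_eq_norm_sq, e1, mul_assoc δ, ← pow_two] at h1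
    exact speed_aux hμ0 hμ hδ0 hδ hd0 (norm_nonneg _) (hE t ht) h1
  refine ⟨fun t ht => (hall t ht).1, ?_⟩
  intro a b ha hb hab t ht
  have h0mem : (0 : ℝ) ∈ Set.Icc (0 : ℝ) 1 := ⟨le_rfl, by norm_num⟩
  have hAle : ∀ s ∈ Set.Icc (0 : ℝ) 1, ‖Agen a b (γ s)‖ ≤ 1 := by
    intro s hs
    have := Pool.Agent.V11191.Opp.Agen_norm_le ha hb hab (γ s)
    rwa [hnorm s hs] at this
  have hδd : δ * d ≤ μ / 2000 * d := by
    have : δ ≤ μ / 2000 := by nlinarith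
    exact mul_le_mul_of_nonneg_right this hd0.le
  have hJd : ∀ s ∈ Set.Icc (0 : ℝ) 1, |G (γ s) (deriv γ s) (Agen a b (γ s)) -
      Real.exp (2 * (ε * u (γ s))) * ⟪deriv γ s, Agen a b (γ s)⟫| ≤ 101 / 100 * (δ * d) := by
    intro s hs
    refine (hN.h0 _ _ _ (hnorm s hs)).trans ?_
    calc δ * ‖deriv γ s‖ * ‖Agen a b (γ s)‖ ≤ δ * (101 / 100 * d) * 1 :=
          mul_le_mul (mul_le_mul_of_nonneg_left (hall s hs).2.2 hδ0) (hAle s hs) (norm_nonneg _)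
            (by positivity)
      _ = _ := by ring
  have hel := hEL G hN.c1 hN.symm (fun p v hp => G_nonneg hC hN p v hp) γ p q hγ a b ha hb hab t ht
  have hbd : ∀ s ∈ Ι (0 : ℝ) t, ‖1 / 2 * fderiv ℝ G (γ s) (Agen a b (γ s)) (deriv γ s) (deriv γ s) +
      G (γ s) (deriv γ s) (Agen a b (deriv γ s))‖ ≤ 9 / 2 * μ * d := by
    intro s hs
    rw [Set.uIoc_of_le ht.1] at hs
    have hs' : s ∈ Set.Icc (0 : ℝ) 1 := ⟨hs.1.le, hs.2.trans ht.2⟩
    obtain ⟨-, b2, b3⟩ := hall s hs'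
    have hn := hnorm s hs'
    have hN0 : 0 ≤ ‖deriv γ s‖ := norm_nonneg _
    have hE0 : 0 < Real.exp (ε * u (γ s)) := Real.exp_pos _
    have c1 := hN.h1 (γ s) (Agen a b (γ s)) (deriv γ s) hn (inner_Agen_self a b (γ s))
    have c2 : δ * ‖Agen a b (γ s)‖ * ‖deriv γ s‖ ^ 2 ≤ δ * ‖deriv γ s‖ ^ 2 := by
      have := mul_le_mul_of_nonneg_left (hAle s hs') hδ0
      have h2 := mul_le_mul_of_nonneg_right this (sq_nonneg ‖deriv γ s‖)
      linarith
    have c3 : |ε * fderiv ℝ u (γ s) (Agen a b (γ s))| ≤ μ := by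
      rw [abs_mul, abs_of_pos hε, hC.mu]
      refine mul_le_mul_of_nonneg_left ?_ hε.le
      refine (hC.good.dbound _ _ hn).trans ?_
      calc M * ‖Agen a b (γ s)‖ ≤ M * 1 :=
            mul_le_mul_of_nonneg_left (hAle s hs') (by linarith)
        _ = M := mul_one _
    have c4 : |2 * Real.exp (2 * (ε * u (γ s))) * (ε * fderiv ℝ u (γ s) (Agen a b (γ s))) *
        ‖deriv γ s‖ ^ 2| ≤ 2 * μ * (Real.exp (ε * u (γ s)) * ‖deriv γ s‖) ^ 2 := by
      have e2 : 2 * Real.exp (2 * (ε * u (γ s))) * (ε * fderiv ℝ u (γ s) (Agen a b (γ s))) *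
        ‖deriv γ s‖ ^ 2 = (2 * (Real.exp (ε * u (γ s)) * ‖deriv γ s‖) ^ 2) *
          (ε * fderiv ℝ u (γ s) (Agen a b (γ s))) := by rw [e1]; ring
      rw [e2, abs_mul, abs_of_nonneg (by positivity :
        0 ≤ 2 * (Real.exp (ε * u (γ s)) * ‖deriv γ s‖) ^ 2)]
      have := mul_le_mul_of_nonneg_left c3 (by positivity :
        0 ≤ 2 * (Real.exp (ε * u (γ s)) * ‖deriv γ s‖) ^ 2)
      linarith
    have c5 := hN.h0 (γ s) (deriv γ s) (Agen a b (deriv γ s)) hn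
    rw [inner_Agen_self, mul_zero, sub_zero] at c5
    have c6 : δ * ‖deriv γ s‖ * ‖Agen a b (deriv γ s)‖ ≤ δ * ‖deriv γ s‖ ^ 2 := by
      have := Pool.Agent.V11191.Opp.Agen_norm_le ha hb hab (deriv γ s)
      have h2 := mul_le_mul_of_nonneg_left this (mul_nonneg hδ0 hN0)
      nlinarith
    have c7 : (Real.exp (ε * u (γ s)) * ‖deriv γ s‖) ^ 2 ≤ (1001 / 1000 * d) ^ 2 :=
      pow_le_pow_left₀ (by positivity) b2 2
    have c8 : ‖deriv γ s‖ ^ 2 ≤ (101 / 100 * d) ^ 2 := pow_le_pow_left₀ hN0 b3 2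
    have c9 : d ^ 2 ≤ 4 * d := by nlinarith
    have c10 : μ * (Real.exp (ε * u (γ s)) * ‖deriv γ s‖) ^ 2 ≤ μ * ((1001 / 1000) ^ 2 * (4 * d)) := by
      refine mul_le_mul_of_nonneg_left ?_ hμ0.le
      refine c7.trans ?_
      rw [mul_pow]
      exact mul_le_mul_of_nonneg_left c9 (by positivity)
    have c11 : δ * ‖deriv γ s‖ ^ 2 ≤ δ * ((101 / 100) ^ 2 * (4 * d)) := by
      refine mul_le_mul_of_nonneg_left ?_ hδ0
      refine c8.trans ?_
      rw [mul_pow]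
      exact mul_le_mul_of_nonneg_left c9 (by positivity)
    rw [Real.norm_eq_abs]
    obtain ⟨c1a, c1b⟩ := abs_le.1 c1
    obtain ⟨c4a, c4b⟩ := abs_le.1 c4
    obtain ⟨c5a, c5b⟩ := abs_le.1 c5
    rw [abs_le]
    have hμd : 0 ≤ μ * d := by positivity
    have c12 : δ * d ≤ 1 / 2000 * (μ * d) := by linarith
    have c13 : μ * ((1001 / 1000) ^ 2 * (4 * d)) = (1001 / 1000) ^ 2 * 4 * (μ * d) := by ring
    have c14 : δ * ((101 / 100) ^ 2 * (4 * d)) = (101 / 100) ^ 2 * 4 * (δ * d) := by ring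
    rw [c13] at c10
    rw [c14] at c11
    have c15 : 2 * μ * (Real.exp (ε * u (γ s)) * ‖deriv γ s‖) ^ 2 =
        2 * (μ * (Real.exp (ε * u (γ s)) * ‖deriv γ s‖) ^ 2) := by ring
    rw [c15] at c4a c4b
    have c16 : 9 / 2 * μ * d = 9 / 2 * (μ * d) := by ring
    rw [c16]
    generalize δ * ‖Agen a b (γ s)‖ * ‖deriv γ s‖ ^ 2 = y1 at *
    generalize δ * ‖deriv γ s‖ * ‖Agen a b (deriv γ s)‖ = y2 at *
    generalize μ * (Real.exp (ε * u (γ s)) * ‖deriv γ s‖) ^ 2 = y3 at *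
    generalize δ * ‖deriv γ s‖ ^ 2 = y4 at *
    generalize 2 * Real.exp (2 * (ε * u (γ s))) * (ε * fderiv ℝ u (γ s) (Agen a b (γ s))) *
        ‖deriv γ s‖ ^ 2 = y5 at *
    generalize fderiv ℝ G (γ s) (Agen a b (γ s)) (deriv γ s) (deriv γ s) = y6 at *
    generalize G (γ s) (deriv γ s) (Agen a b (deriv γ s)) = y7 at *
    generalize μ * d = y8 at *
    generalize δ * d = y9 at *
    constructor <;> linarith
  have hint := intervalIntegral.norm_integral_le_of_norm_le_const hbd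
  rw [Real.norm_eq_abs, sub_zero, abs_of_nonneg ht.1] at hint
  have hint2 : 9 / 2 * μ * d * t ≤ 9 / 2 * μ * d := by
    have : 0 ≤ 9 / 2 * μ * d := by positivity
    calc 9 / 2 * μ * d * t ≤ 9 / 2 * μ * d * 1 := mul_le_mul_of_nonneg_left ht.2 this
      _ = _ := mul_one _
  have j1 := abs_le.1 (hJd t ht)
  have j2 := abs_le.1 (hJd 0 h0mem)
  have j3 := abs_le.1 (hint.trans hint2)
  have hμd : 0 ≤ μ * d := by positivity
  rw [abs_le]
  constructor <;> linarith [j1.1, j1.2, j2.1, j2.2, j3.1, j3.2]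

end Pool.Agent.T6.H32.OP
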