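import Pool.Agent.T6.H32.OP.Defs

/-!
# Project OP, module PRS: property (O) depends only on the restriction to the tangent planes
-/

set_option autoImplicit false
set_option maxSynthPendingDepth 3

open scoped RealInnerProductSpace Topology Interval ContDiff
open MeasureTheory
open Pool.Agent.V11191.Opp (E3 IsPath Good Fr gc PP uu Agen)

namespace Pool.Agent.T6.H32.OP

namespace PRSx

theorem path_norm {c : ℝ → E3} {p q : E3} (hc : IsPath c p q) {t : ℝ}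
    (ht : t ∈ Set.Icc (0 : ℝ) 1) : ‖c t‖ = 1 := by
  have := hc.mem t ht
  rwa [mem_sphere_zero_iff_norm] at this

theorem path_tangent {c : ℝ → E3} {p q : E3} (hc : IsPath c p q) {t : ℝ}
    (ht : t ∈ Set.Icc (0 : ℝ) 1) : ⟪c t, deriv c t⟫ = 0 := by
  have h1 : HasDerivAt c (deriv c t) t := ((hc.c1.differentiable one_ne_zero) t).hasDerivAt
  have hw : HasDerivWithinAt (fun s => ‖c s‖ ^ 2) (2 * ⟪c t, deriv c t⟫) (Set.Icc 0 1) t :=
    h1.norm_sq.hasDerivWithinAt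
  have hw2 : HasDerivWithinAt (fun _ : ℝ => (1 : ℝ)) (2 * ⟪c t, deriv c t⟫) (Set.Icc 0 1) t := by
    refine hw.congr ?_ ?_
    · intro s hs
      rw [path_norm hc hs]; norm_num
    · rw [path_norm hc ht]; norm_num
  have huniq : UniqueDiffWithinAt ℝ (Set.Icc (0 : ℝ) 1) t :=
    (uniqueDiffOn_Icc (by norm_num)) t ht
  have h5 := huniq.eq_deriv _ hw2 (hasDerivWithinAt_const t _ (1 : ℝ))
  linarith

variable {G G' : E3 → Bil}

theorem eq_path (h : ∀ p v w, ‖p‖ = 1 → ⟪p, v⟫ = 0 → ⟪p, w⟫ = 0 → G p v w = G' p v w)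
    {c : ℝ → E3} {p q : E3} (hc : IsPath c p q) {t : ℝ} (ht : t ∈ Set.Icc (0 : ℝ) 1) :
    G (c t) (deriv c t) (deriv c t) = G' (c t) (deriv c t) (deriv c t) :=
  h _ _ _ (path_norm hc ht) (path_tangent hc ht) (path_tangent hc ht)

theorem glen_eq (h : ∀ p v w, ‖p‖ = 1 → ⟪p, v⟫ = 0 → ⟪p, w⟫ = 0 → G p v w = G' p v w)
    {c : ℝ → E3} {p q : E3} (hc : IsPath c p q) : glen G c = glen G' c := by
  unfold glen
  refine intervalIntegral.integral_congr fun t ht => ?_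
  rw [Set.uIcc_of_le (by norm_num : (0 : ℝ) ≤ 1)] at ht
  exact congrArg Real.sqrt (eq_path h hc ht)

theorem grho_eq (h : ∀ p v w, ‖p‖ = 1 → ⟪p, v⟫ = 0 → ⟪p, w⟫ = 0 → G p v w = G' p v w)
    (p q : E3) : grho G p q = grho G' p q := by
  unfold grho
  congr 1
  ext L
  constructor
  · rintro ⟨c, hc, rfl⟩
    exact ⟨c, hc, glen_eq h hc⟩
  · rintro ⟨c, hc, rfl⟩
    exact ⟨c, hc, (glen_eq h hc).symm⟩

theorem gseg (h : ∀ p v w, ‖p‖ = 1 → ⟪p, v⟫ = 0 → ⟪p, w⟫ = 0 → G p v w = G' p v w)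
    {c : ℝ → E3} {p q : E3} (hc : GSeg G c p q) : GSeg G' c p q := by
  refine ⟨hc.path, fun t ht => ?_⟩
  rw [← eq_path h hc.path ht, ← grho_eq h]
  exact hc.speed t ht

theorem gang_eq (h : ∀ p v w, ‖p‖ = 1 → ⟪p, v⟫ = 0 → ⟪p, w⟫ = 0 → G p v w = G' p v w)
    {y v w : E3} (hy : ‖y‖ = 1) (hv : ⟪y, v⟫ = 0) (hw : ⟪y, w⟫ = 0) :
    gang G y v w = gang G' y v w := by
  unfold gang
  rw [h y v w hy hv hw, h y v v hy hv hv, h y w w hy hw hw]

end PRSx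

open PRSx

theorem prs : PRSStm := by
  intro G G' h hO
  obtain ⟨x, hx, y, hy, hxy, hcr, c₁, c₂, h₁, h₂, hang⟩ := hO
  have h0 : (0 : ℝ) ∈ Set.Icc (0 : ℝ) 1 := ⟨le_rfl, by norm_num⟩
  have hy1 : ‖y‖ = 1 := by rwa [mem_sphere_zero_iff_norm] at hy
  have tan0 : ∀ {c : ℝ → E3}, GSeg G c y x → ⟪y, deriv c 0⟫ = 0 := by
    intro c hc
    have := path_tangent hc.path h0
    rwa [hc.path.start] at this
  refine ⟨x, hx, y, hy, hxy, ?_, c₁, c₂, gseg h h₁, gseg h h₂, ?_⟩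
  · intro τ hτ hτ0
    obtain ⟨c, hc, hle⟩ := hcr τ hτ hτ0
    refine ⟨c, gseg h hc, ?_⟩
    rw [← gang_eq h hy1 (tan0 hc) (by rw [real_inner_comm]; exact hτ)]
    exact hle
  · rw [← gang_eq h hy1 (tan0 h₁) (tan0 h₂)]
    exact hang

end Pool.Agent.T6.H32.OP
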