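import Mathlib
import Pool.Agent.V11191.Opp.Defs

/-!
MP_da270e_gt, Q2 (helper32): the definitions used by the final statement.
Riemannian metrics on the unit sphere of `ℝ³`, the `C^∞` topology, segments, critical points and
property (O).
-/

set_option autoImplicit false

open scoped RealInnerProductSpace Topology Interval ContDiff
open MeasureTheory
open Pool.Agent.V11191.Opp (E3 IsPath)

namespace Pool.Agent.T6.H32.OP

/-- `b` is a symmetric bilinear form on `ℝ³`. -/
structure SymForm (b : E3 → E3 → ℝ) : Prop where
  /-- additivity -/
  add : ∀ v v' w, b (v + v') w = b v w + b v' w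
  /-- homogeneity -/
  smul : ∀ (c : ℝ) (v w : E3), b (c • v) w = c * b v w
  /-- symmetry -/
  symm : ∀ v w, b v w = b w v

/-- A smooth Riemannian metric on the unit sphere of `ℝ³`, i.e. a smooth family of inner products
on its tangent planes. It is given by its unique extension `g p v w` (the product of `v` and `w`
at `p`) to symmetric bilinear forms on `ℝ³`, at all points `p` of `ℝ³ ∖ {0}`, which is constant
on rays and vanishes on radial vectors. -/
structure RMetric where
  /-- the family of bilinear forms -/
  g : E3 → E3 → E3 → ℝ
  /-- they are symmetric bilinear forms -/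
  form : ∀ p, SymForm (g p)
  /-- the family is smooth away from the origin -/
  smooth : ∀ v w, ContDiffOn ℝ ∞ (fun p => g p v w) {0}ᶜ
  /-- it is constant on rays -/
  ray : ∀ (r : ℝ) (p v w : E3), 0 < r → g (r • p) v w = g p v w
  /-- radial vectors are in the kernel -/
  radial : ∀ p v, g p p v = 0
  /-- it is positive definite on the tangent planes -/
  pos : ∀ p v, ‖p‖ = 1 → inner ℝ p v = 0 → v ≠ 0 → 0 < g p v v
  /-- normalisation at the origin -/
  zero : ∀ v w, g 0 v w = 0

/-- `k`-linear forms on `ℝ³`. -/
def Jet (k : ℕ) : Type := ContinuousMultilinearMap ℝ (fun _ : Fin k => E3) ℝ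

/-- their usual uniform structure -/
noncomputable instance (k : ℕ) : UniformSpace (Jet k) :=
  inferInstanceAs (UniformSpace (ContinuousMultilinearMap ℝ (fun _ : Fin k => E3) ℝ))

/-- The `k`-th derivative of a function. -/
noncomputable def kder (k : ℕ) (f : E3 → ℝ) : E3 → Jet k := iteratedFDeriv ℝ k f

/-- The unit sphere of `ℝ³`. -/
def S2 : Set E3 := Metric.sphere (0 : E3) 1

/-- The `k`-th derivative of the coefficient `g p v w`, as a function of the point `p` of the
sphere, in the space of functions with the topology of uniform convergence. -/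
noncomputable def jet (k : ℕ) (v w : E3) (G : RMetric) :
    UniformFun S2 (Jet k) :=
  UniformFun.ofFun fun p => kder k (fun q => G.g q v w) p

/-- The `C^∞` topology on the space of metrics: uniform convergence on the (compact) sphere of the
derivatives of all orders of the coefficients. -/
noncomputable instance : TopologicalSpace RMetric :=
  ⨅ (k : ℕ) (v : E3) (w : E3), TopologicalSpace.induced (jet k v w) inferInstance

/-- Length of a path. -/
noncomputable def rlen (g : E3 → E3 → E3 → ℝ) (c : ℝ → E3) : ℝ :=
  ∫ t in (0 : ℝ)..1, Real.sqrt (g (c t) (deriv c t) (deriv c t))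

/-- Intrinsic distance: the infimum of the lengths of the `C¹` paths in the sphere from `p` to
`q`. -/
noncomputable def rdist (g : E3 → E3 → E3 → ℝ) (p q : E3) : ℝ :=
  sInf {L | ∃ c, IsPath c p q ∧ L = rlen g c}

/-- `c` is a segment from `p` to `q`, i.e. a shortest path, parametrized on `[0,1]`
proportionally to arc length. -/
structure RSeg (g : E3 → E3 → E3 → ℝ) (c : ℝ → E3) (p q : E3) : Prop where
  /-- it is a path from `p` to `q` -/
  path : IsPath c p q
  /-- it has constant speed, equal to the distance from `p` to `q` -/
  speed : ∀ t ∈ Set.Icc (0 : ℝ) 1, Real.sqrt (g (c t) (deriv c t) (deriv c t)) = rdist g p q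

/-- The angle between the tangent vectors `v` and `w`, for the inner product `b`. -/
noncomputable def rangle (b : E3 → E3 → ℝ) (v w : E3) : ℝ :=
  Real.arccos (b v w / (Real.sqrt (b v v) * Real.sqrt (b w w)))

/-- `y` is critical with respect to `x`: for every nonzero tangent vector `τ` at `y` some segment
from `y` to `x` has at `y` a tangent direction making an angle at most `π/2` with `τ`. -/
def RCrit (g : E3 → E3 → E3 → ℝ) (x y : E3) : Prop :=
  ∀ τ : E3, inner ℝ τ y = 0 → τ ≠ 0 →
    ∃ c, RSeg g c y x ∧ rangle (g y) (deriv c 0) τ ≤ Real.pi / 2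

/-- Property (O): there are points `x ≠ y` with `y` critical with respect to `x` and two segments
from `y` to `x` whose tangent directions at `y` make the angle `π`. -/
def PropertyO (g : E3 → E3 → E3 → ℝ) : Prop :=
  ∃ x ∈ Metric.sphere (0 : E3) 1, ∃ y ∈ Metric.sphere (0 : E3) 1, x ≠ y ∧ RCrit g x y ∧
    ∃ c₁ c₂, RSeg g c₁ y x ∧ RSeg g c₂ y x ∧
      rangle (g y) (deriv c₁ 0) (deriv c₂ 0) = Real.pi

end Pool.Agent.T6.H32.OP
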