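import Mathlib
import Pool.Agent.T6.H32.OP.Defs

/-!
MP_da270e_gt, Q2 (helper32), module TOP: a set of metrics which misses a `C¹`-neighbourhood of a
metric is not dense for the `C^∞` topology.
-/

set_option autoImplicit false
set_option maxSynthPendingDepth 3

open scoped RealInnerProductSpace Topology Interval ContDiff Uniformity
open MeasureTheory
open Pool.Agent.V11191.Opp (E3)

namespace Pool.Agent.T6.H32.OP

namespace TOPx

theorem nhd (G₀ : SMetric) {η : ℝ} (hη : 0 < η) (k : ℕ) :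
    {G : SMetric | ∀ p : Metric.sphere (0 : E3) 1,
      dist (iteratedFDeriv ℝ k G₀.g (p : E3)) (iteratedFDeriv ℝ k G.g (p : E3)) < η} ∈ 𝓝 G₀ := by
  have h1 : Continuous (fun G : SMetric => UniformFun.ofFun
      (fun p : Metric.sphere (0 : E3) 1 => iteratedFDeriv ℝ k G.g (p : E3))) :=
    continuous_iInf_dom (i := k) continuous_induced_dom
  have h2 := (UniformFun.hasBasis_nhds (Metric.sphere (0 : E3) 1) _
    (UniformFun.ofFun (fun p : Metric.sphere (0 : E3) 1 =>
      iteratedFDeriv ℝ k G₀.g (p : E3)))).mem_of_mem (Metric.dist_mem_uniformity hη)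
  have h3 := h1.continuousAt.preimage_mem_nhds h2
  filter_upwards [h3] with G hG p
  exact hG p

theorem c0 (f g : E3 → Bil) (p : E3) :
    ‖f p - g p‖ ≤ dist (iteratedFDeriv ℝ 0 g p) (iteratedFDeriv ℝ 0 f p) := by
  rw [dist_comm, dist_eq_norm, iteratedFDeriv_zero_eq_comp, iteratedFDeriv_zero_eq_comp]
  simp only [Function.comp]
  rw [← map_sub, LinearIsometryEquiv.norm_map]

theorem c1 (f g : E3 → Bil) (p : E3) :
    ‖fderiv ℝ f p - fderiv ℝ g p‖ ≤ dist (iteratedFDeriv ℝ 1 g p) (iteratedFDeriv ℝ 1 f p) := by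
  rw [dist_comm, dist_eq_norm]
  refine ContinuousLinearMap.opNorm_le_bound _ (norm_nonneg _) fun v => ?_
  have h1 := (iteratedFDeriv ℝ 1 f p - iteratedFDeriv ℝ 1 g p).le_opNorm (fun _ => v)
  simpa using h1

end TOPx

open TOPx in
theorem top : TOPStm := by
  intro S G₀ η hη hU hS
  have h0 := nhd G₀ hη 0
  have h1 := nhd G₀ hη 1
  have h2 := mem_closure_iff_nhds.1 (hS G₀) _ (Filter.inter_mem h0 h1)
  obtain ⟨G, ⟨hG0, hG1⟩, hGS⟩ := h2
  refine hU G (fun p hp => ?_) (fun p hp => ?_) hGS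
  · exact (c0 G.g G₀.g p).trans (hG0 ⟨p, by simpa using hp⟩).le
  · exact (c1 G.g G₀.g p).trans (hG1 ⟨p, by simpa using hp⟩).le

end Pool.Agent.T6.H32.OP
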