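import Pool.Agent.T6.H32.OP.Defs

/-! Module UNI (helper32). -/

set_option autoImplicit false
set_option maxSynthPendingDepth 3

open scoped RealInnerProductSpace Topology Interval ContDiff
open MeasureTheory
open Pool.Agent.V11191.Opp (E3 Fr PP subseq4 PP_tendsto PP_not_linear)

namespace Pool.Agent.T6.H32.OP

theorem uni : UNIStm := by
  intro R
  by_contra hcon
  push Not at hcon
  have h1 : ∀ k : ℕ, ∃ y τ n w : E3, Fr y τ n ∧ ‖w‖ ≤ R ∧ ∀ a b : ℝ, a ^ 2 + b ^ 2 = 1 →
      |PP y (a • τ + b • n) - ⟪w, a • τ + b • n⟫| < 1 / ((k : ℝ) + 1) :=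
    fun k => hcon _ (by positivity)
  choose y τ n w hF hw hb using h1
  obtain ⟨Y, T, Nn, W, s, hs, hy', hτ', hn', hw'⟩ := subseq4 (fun k => (hF k).hy.le)
    (fun k => (hF k).hτ.le) (fun k => (hF k).hn.le) hw
  have hlimF : Fr Y T Nn := by
    refine ⟨?_, ?_, ?_, ?_, ?_, ?_⟩
    · exact tendsto_nhds_unique hy'.norm (by simp only [(hF _).hy]; exact tendsto_const_nhds)
    · exact tendsto_nhds_unique hτ'.norm (by simp only [(hF _).hτ]; exact tendsto_const_nhds)
    · exact tendsto_nhds_unique hn'.norm (by simp only [(hF _).hn]; exact tendsto_const_nhds)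
    · exact tendsto_nhds_unique (hy'.inner hτ')
        (by simp only [(hF _).hyτ]; exact tendsto_const_nhds)
    · exact tendsto_nhds_unique (hy'.inner hn')
        (by simp only [(hF _).hyn]; exact tendsto_const_nhds)
    · exact tendsto_nhds_unique (hτ'.inner hn')
        (by simp only [(hF _).hτn]; exact tendsto_const_nhds)
  refine PP_not_linear (w := W) hlimF ?_
  intro a b hab
  have he : Filter.Tendsto (fun k => a • τ (s k) + b • n (s k)) Filter.atTop
      (𝓝 (a • T + b • Nn)) := (hτ'.const_smul a).add (hn'.const_smul b)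
  have hP : Filter.Tendsto (fun k => PP (y (s k)) (a • τ (s k) + b • n (s k))) Filter.atTop
      (𝓝 (PP Y (a • T + b • Nn))) :=
    PP_tendsto hy' he
  have hin := hw'.inner (𝕜 := ℝ) he
  have h0 : Filter.Tendsto (fun k => 1 / ((s k : ℝ) + 1)) Filter.atTop (𝓝 0) := by
    have h1 : Filter.Tendsto (fun k : ℕ => 1 / ((k : ℝ) + 1)) Filter.atTop (𝓝 0) :=
      tendsto_one_div_add_atTop_nhds_zero_nat
    exact h1.comp hs.tendsto_atTop
  have hdiff := (hP.sub hin).abs
  have hle : |PP Y (a • T + b • Nn) - ⟪W, a • T + b • Nn⟫| ≤ 0 :=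
    le_of_tendsto_of_tendsto' hdiff h0 fun k => (hb (s k) a b hab).le
  have := abs_nonpos_iff.1 hle
  linarith

end Pool.Agent.T6.H32.OP
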