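import Mathlib
import Pool.Agent.T6.H32.OP.Problem
import Pool.Agent.T6.H32.OP.EL
import Pool.Agent.T6.H32.OP.MOM
import Pool.Agent.T6.H32.OP.SEG
import Pool.Agent.T6.H32.OP.CMP
import Pool.Agent.T6.H32.OP.ANG
import Pool.Agent.T6.H32.OP.LOW
import Pool.Agent.T6.H32.OP.KEY
import Pool.Agent.T6.H32.OP.UNI
import Pool.Agent.T6.H32.OP.PRS
import Pool.Agent.T6.H32.OP.MDL
import Pool.Agent.T6.H32.OP.CUT
import Pool.Agent.T6.H32.OP.MAIN
import Pool.Agent.T6.H32.OP.TOP

/-!
MP_da270e_gt, Q2 (helper32): from the operator form of the metrics to the definitions of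
`Problem.lean`.
-/

set_option autoImplicit false
set_option maxSynthPendingDepth 3

open scoped RealInnerProductSpace Topology Interval ContDiff Uniformity
open MeasureTheory
open Pool.Agent.V11191.Opp (E3 IsPath)

namespace Pool.Agent.T6.H32.OP

namespace FINx

/-- standard basis -/
noncomputable def bs (i : Fin 3) : E3 := EuclideanSpace.single i 1

/-- elementary bilinear forms -/
noncomputable def EE (i j : Fin 3) : Bil :=
  (EuclideanSpace.proj i : E3 →L[ℝ] ℝ).smulRight (EuclideanSpace.proj j : E3 →L[ℝ] ℝ)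

theorem EE_apply (i j : Fin 3) (v w : E3) : EE i j v w = v i * w j := by simp [EE]

theorem expand (v : E3) : v = ∑ i, v i • bs i := by
  ext k
  simp [bs, Pi.single_apply]

theorem form_zero {b : E3 → E3 → ℝ} (hb : SymForm b) (w : E3) : b 0 w = 0 := by
  have := hb.smul 0 0 w
  simpa using this

theorem form_sum {b : E3 → E3 → ℝ} (hb : SymForm b) (s : Finset (Fin 3)) (f : Fin 3 → E3)
    (w : E3) : b (∑ i ∈ s, f i) w = ∑ i ∈ s, b (f i) w := by
  classical
  induction s using Finset.induction_on with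
  | empty => simpa using form_zero hb w
  | insert a s ha ih => rw [Finset.sum_insert ha, Finset.sum_insert ha, hb.add, ih]

theorem form_expand {b : E3 → E3 → ℝ} (hb : SymForm b) (v w : E3) :
    b v w = ∑ i, ∑ j, b (bs i) (bs j) * (v i * w j) := by
  conv_lhs => rw [expand v, form_sum hb]
  refine Finset.sum_congr rfl fun i _ => ?_
  rw [hb.smul, hb.symm]
  conv_lhs => rw [expand w, form_sum hb, Finset.mul_sum]
  refine Finset.sum_congr rfl fun j _ => ?_
  rw [hb.smul, hb.symm (bs j) (bs i)]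
  ring

/-- the operator form -/
noncomputable def toBil (G : RMetric) (p : E3) : Bil :=
  ∑ i, ∑ j, G.g p (bs i) (bs j) • EE i j

theorem toBil_apply (G : RMetric) (p v w : E3) : toBil G p v w = G.g p v w := by
  rw [form_expand (G.form p) v w]
  simp [toBil, EE_apply]

/-- the operator form as a metric -/
noncomputable def toS (G : RMetric) : SMetric where
  g := toBil G
  smooth := by
    unfold toBil
    refine ContDiffOn.sum fun i _ => ContDiffOn.sum fun j _ => ?_
    exact (G.smooth (bs i) (bs j)).smul contDiffOn_const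
  ray := by
    intro r p hr
    unfold toBil
    refine Finset.sum_congr rfl fun i _ => Finset.sum_congr rfl fun j _ => ?_
    rw [G.ray r p _ _ hr]
  radial := by intro p v; rw [toBil_apply]; exact G.radial p v
  symm := by intro p v w; rw [toBil_apply, toBil_apply]; exact (G.form p).symm v w
  pos := by intro p v h1 h2 h3; rw [toBil_apply]; exact G.pos p v h1 h2 h3
  zero := by
    unfold toBil
    simp [G.zero]

/-- and conversely -/
noncomputable def ofS (G : SMetric) : RMetric where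
  g := fun p v w => G.g p v w
  form := fun p => ⟨fun v v' w => by simp, fun c v w => by simp, fun v w => G.symm p v w⟩
  smooth := fun v w => (G.smooth.clm_apply contDiffOn_const).clm_apply contDiffOn_const
  ray := fun r p v w hr => by rw [G.ray r p hr]
  radial := G.radial
  pos := G.pos
  zero := fun v w => by simp [G.zero]

theorem seg_iff (G : E3 → Bil) (c : ℝ → E3) (p q : E3) :
    RSeg (fun p v w => G p v w) c p q ↔ GSeg G c p q :=
  ⟨fun h => ⟨h.path, h.speed⟩, fun h => ⟨h.path, h.speed⟩⟩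

theorem crit_iff (G : E3 → Bil) (x y : E3) :
    RCrit (fun p v w => G p v w) x y ↔ GCrit G x y := by
  unfold RCrit GCrit
  simp only [seg_iff]
  rfl

theorem propO_iff (G : E3 → Bil) : PropertyO (fun p v w => G p v w) ↔ PropO G := by
  unfold PropertyO PropO
  simp only [seg_iff, crit_iff]
  rfl

theorem propO_toS (G : RMetric) : PropertyO G.g ↔ PropO (toS G).g := by
  rw [← propO_iff]
  have : (fun p v w => (toS G).g p v w) = G.g := by
    funext p v w
    exact toBil_apply G p v w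
  rw [this]

theorem nhd (G₀ : RMetric) {η : ℝ} (hη : 0 < η) (k : ℕ) (v w : E3) :
    {G : RMetric | ∀ p : E3, ‖p‖ = 1 →
      dist (iteratedFDeriv ℝ k (fun q => G₀.g q v w) p)
        (iteratedFDeriv ℝ k (fun q => G.g q v w) p) < η} ∈ 𝓝 G₀ := by
  have h1 : Continuous (jet k v w) :=
    continuous_iInf_dom (i := k) (continuous_iInf_dom (i := v)
      (continuous_iInf_dom (i := w) continuous_induced_dom))
  have hm : {x : Jet k × Jet k | dist (α := ContinuousMultilinearMap ℝ (fun _ : Fin k => E3) ℝ)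
      x.1 x.2 < η} ∈ 𝓤 (Jet k) :=
    Metric.dist_mem_uniformity (α := ContinuousMultilinearMap ℝ (fun _ : Fin k => E3) ℝ) hη
  have h2 := (UniformFun.hasBasis_nhds S2 (Jet k) (jet k v w G₀)).mem_of_mem hm
  have h3 := h1.continuousAt.preimage_mem_nhds h2
  filter_upwards [h3] with G hG p hp
  exact hG ⟨p, by simpa [S2] using hp⟩

theorem d0 (f g : E3 → ℝ) (p : E3) :
    |f p - g p| ≤ dist (iteratedFDeriv ℝ 0 g p) (iteratedFDeriv ℝ 0 f p) := by
  rw [dist_comm, dist_eq_norm, iteratedFDeriv_zero_eq_comp, iteratedFDeriv_zero_eq_comp]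
  simp only [Function.comp]
  rw [← map_sub, LinearIsometryEquiv.norm_map, Real.norm_eq_abs]

theorem d1 (f g : E3 → ℝ) (p : E3) :
    ‖fderiv ℝ f p - fderiv ℝ g p‖ ≤ dist (iteratedFDeriv ℝ 1 g p) (iteratedFDeriv ℝ 1 f p) := by
  rw [dist_comm, dist_eq_norm]
  refine ContinuousLinearMap.opNorm_le_bound _ (norm_nonneg _) fun v => ?_
  have h1 := (iteratedFDeriv ℝ 1 f p - iteratedFDeriv ℝ 1 g p).le_opNorm (fun _ => v)
  simpa using h1

/-- a bound for the elementary forms -/
noncomputable def CE : ℝ := ∑ i, ∑ j, ‖EE i j‖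

theorem CE_nonneg : 0 ≤ CE :=
  Finset.sum_nonneg fun i _ => Finset.sum_nonneg fun j _ => norm_nonneg _

theorem close0 (G G₀ : RMetric) (p : E3) {η : ℝ}
    (h : ∀ i j, |G.g p (bs i) (bs j) - G₀.g p (bs i) (bs j)| ≤ η) :
    ‖toBil G p - toBil G₀ p‖ ≤ η * CE := by
  have e : toBil G p - toBil G₀ p =
      ∑ i, ∑ j, (G.g p (bs i) (bs j) - G₀.g p (bs i) (bs j)) • EE i j := by
    simp only [toBil, ← Finset.sum_sub_distrib, sub_smul]
  rw [e, CE, Finset.mul_sum]
  refine (norm_sum_le _ _).trans (Finset.sum_le_sum fun i _ => ?_)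
  rw [Finset.mul_sum]
  refine (norm_sum_le _ _).trans (Finset.sum_le_sum fun j _ => ?_)
  rw [norm_smul, Real.norm_eq_abs]
  exact mul_le_mul_of_nonneg_right (h i j) (norm_nonneg _)

theorem diffAt (G : RMetric) {p : E3} (hp : p ≠ 0) (v w : E3) :
    DifferentiableAt ℝ (fun q => G.g q v w) p :=
  ((G.smooth v w).contDiffAt (isOpen_compl_singleton.mem_nhds hp)).differentiableAt
    (by simp)

theorem fd (G : RMetric) {p : E3} (hp : p ≠ 0) (a : E3) : fderiv ℝ (toBil G) p a =
    ∑ i, ∑ j, (fderiv ℝ (fun q => G.g q (bs i) (bs j)) p a) • EE i j := by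
  have h : HasFDerivAt (toBil G) (∑ i, ∑ j,
      (fderiv ℝ (fun q => G.g q (bs i) (bs j)) p).smulRight (EE i j)) p := by
    unfold toBil
    refine HasFDerivAt.fun_sum fun i _ => HasFDerivAt.fun_sum fun j _ => ?_
    exact (diffAt G hp (bs i) (bs j)).hasFDerivAt.smul_const (EE i j)
  rw [h.fderiv]
  simp

theorem close1 (G G₀ : RMetric) {p : E3} (hp : p ≠ 0) {η : ℝ} (hη : 0 ≤ η)
    (h : ∀ i j, ‖fderiv ℝ (fun q => G.g q (bs i) (bs j)) p -
      fderiv ℝ (fun q => G₀.g q (bs i) (bs j)) p‖ ≤ η) :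
    ‖fderiv ℝ (toBil G) p - fderiv ℝ (toBil G₀) p‖ ≤ η * CE := by
  refine ContinuousLinearMap.opNorm_le_bound _ (mul_nonneg hη CE_nonneg) fun a => ?_
  rw [sub_apply, fd G hp, fd G₀ hp]
  have e : (∑ i, ∑ j, (fderiv ℝ (fun q => G.g q (bs i) (bs j)) p a) • EE i j) -
      (∑ i, ∑ j, (fderiv ℝ (fun q => G₀.g q (bs i) (bs j)) p a) • EE i j) =
      ∑ i, ∑ j, ((fderiv ℝ (fun q => G.g q (bs i) (bs j)) p -
        fderiv ℝ (fun q => G₀.g q (bs i) (bs j)) p) a) • EE i j := by
    simp only [← Finset.sum_sub_distrib, ← sub_smul, sub_apply]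
  rw [e]
  have : η * CE * ‖a‖ = ∑ i, ∑ j, (η * ‖a‖) * ‖EE i j‖ := by
    simp only [CE, Finset.mul_sum, Finset.sum_mul]
    refine Finset.sum_congr rfl fun i _ => Finset.sum_congr rfl fun j _ => ?_
    ring
  rw [this]
  refine (norm_sum_le _ _).trans (Finset.sum_le_sum fun i _ => ?_)
  refine (norm_sum_le _ _).trans (Finset.sum_le_sum fun j _ => ?_)
  rw [norm_smul]
  refine mul_le_mul_of_nonneg_right ?_ (norm_nonneg _)
  refine (ContinuousLinearMap.le_opNorm _ a).trans ?_
  exact mul_le_mul_of_nonneg_right (h i j) (norm_nonneg _)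

end FINx

open FINx in
/-- The metrics with property (O) are not dense. -/
theorem final : ¬ Dense {G : RMetric | PropertyO G.g} := by
  obtain ⟨ε, δ, hε, hδ, hno⟩ := main (key (low (mom el) seg cmp ang) cmp) uni
  obtain ⟨S₀, hS₀⟩ := mdl_metric ε
  obtain ⟨η, hη, hcut⟩ := cut ε δ hδ
  set G₀ : RMetric := ofS S₀ with hG₀
  have hG₀' : toBil G₀ = mdl ε := by
    funext p
    ext v w
    have := toBil_apply G₀ p v w
    rw [this, ← hS₀]
    rfl
  set κ : ℝ := η / (CE + 1) with hκ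
  have hCE := CE_nonneg
  have hκ0 : 0 < κ := by positivity
  have hκ1 : κ * CE ≤ η := by
    rw [hκ, div_mul_eq_mul_div, div_le_iff₀ (by positivity)]
    nlinarith
  intro hD
  have hU0 : ∀ i j, {G : RMetric | ∀ p : E3, ‖p‖ = 1 →
      dist (iteratedFDeriv ℝ 0 (fun q => G₀.g q (bs i) (bs j)) p)
        (iteratedFDeriv ℝ 0 (fun q => G.g q (bs i) (bs j)) p) < κ} ∈ 𝓝 G₀ :=
    fun i j => nhd G₀ hκ0 0 (bs i) (bs j)
  have hU1 : ∀ i j, {G : RMetric | ∀ p : E3, ‖p‖ = 1 →
      dist (iteratedFDeriv ℝ 1 (fun q => G₀.g q (bs i) (bs j)) p)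
        (iteratedFDeriv ℝ 1 (fun q => G.g q (bs i) (bs j)) p) < κ} ∈ 𝓝 G₀ :=
    fun i j => nhd G₀ hκ0 1 (bs i) (bs j)
  have hU : ∀ᶠ G in 𝓝 G₀, ∀ i j, (∀ p : E3, ‖p‖ = 1 →
      dist (iteratedFDeriv ℝ 0 (fun q => G₀.g q (bs i) (bs j)) p)
        (iteratedFDeriv ℝ 0 (fun q => G.g q (bs i) (bs j)) p) < κ) ∧ (∀ p : E3, ‖p‖ = 1 →
      dist (iteratedFDeriv ℝ 1 (fun q => G₀.g q (bs i) (bs j)) p)
        (iteratedFDeriv ℝ 1 (fun q => G.g q (bs i) (bs j)) p) < κ) := by
    rw [Filter.eventually_all]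
    intro i
    rw [Filter.eventually_all]
    intro j
    exact Filter.inter_mem (hU0 i j) (hU1 i j)
  obtain ⟨G, hG, hGO⟩ := mem_closure_iff_nhds.1 (hD G₀) _ hU
  rw [Set.mem_ofPred_eq, propO_toS] at hGO
  have h0 : ∀ p : E3, ‖p‖ = 1 → ‖(toS G).g p - mdl ε p‖ ≤ η := by
    intro p hp
    rw [← hG₀']
    refine (close0 G G₀ p fun i j => ?_).trans hκ1
    exact (d0 (fun q => G.g q (bs i) (bs j)) (fun q => G₀.g q (bs i) (bs j)) p).trans
      ((hG i j).1 p hp).le
  have h1 : ∀ p : E3, ‖p‖ = 1 → ‖fderiv ℝ (toS G).g p - fderiv ℝ (mdl ε) p‖ ≤ η := by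
    intro p hp
    have hp0 : p ≠ 0 := by
      rintro rfl
      simp at hp
    rw [← hG₀']
    refine (close1 G G₀ hp0 hκ0.le fun i j => ?_).trans hκ1
    exact (d1 (fun q => G.g q (bs i) (bs j)) (fun q => G₀.g q (bs i) (bs j)) p).trans
      ((hG i j).2 p hp).le
  obtain ⟨G', hN, hag⟩ := hcut (toS G) h0 h1
  exact hno G' hN (prs (toS G).g G' hag hGO)

end Pool.Agent.T6.H32.OP
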